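import Pool.Agent.H48.V0T.S
import Pool.Agent.H71.V0F.Jt
import Pool.Agent.H71.V0R.Nur

/-!
# All codes of the last place of a tie, from a later record

`latt_mesh`: windows between `w` and `x` with small steps of the levels. `jt_t`: the own jets of all
orders of the target `c (k + f)` over labels of the window `w`, to the radius `q`, from the record at
a later window `x` and from the jets of all the places below it; the places `c k, …, c (k + f - 1)`
have the slope of the target.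
-/

set_option autoImplicit false

namespace Pool.NVT16

open Finset Real MvPolynomial
open Pool.Agent.H49.Ent Pool.Agent.H32.Dense Pool.STK Pool.KA Pool.KSAT Pool.K2S Pool.PB Pool.GEN
open Pool.S6C Pool.RCD Pool.LA91 Pool.AVG96 Pool.V0F Pool.V0T
open Pool.OWN68 (RawN F1)
open Pool.AVG71 (cod)
open Pool.GRD (LbP)
open Pool.AJW (FwL ctx CfB TgtN TwoN cod_Fj_p)
open Pool.AJX (JetX LbX FwX MshX ctxK_few)

variable {m : ℕ} {S : PCl m} {c : ℕ → Fin m} {k f : ℕ} {sn : ℕ → ℝ → ℝ} {G : Set ℝ} {b o φ : ℝ}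

/-- **Windows between `w` and `x`**, the levels grow by at most `2 φ` in every step. -/
theorem latt_mesh (L : LadT S c k f sn G b o φ) {w x : ℝ} (hw : w ∈ G) (hx : x ∈ G) (hbw : b ≤ w)
    (hwx : w ≤ x) (hxo : x ≤ o) : ∃ (M : ℕ) (B : ℕ → ℝ), B 0 = w ∧ B M = x ∧
      (∀ t ≤ M, B t ∈ G ∧ w ≤ B t ∧ B t ≤ x) ∧
      (∀ t < M, B t ≤ B (t + 1) ∧ B (t + 1) ≤ B t + 3 * φ ∧
        ∀ l, k ≤ l → l ≤ k + f → sn l (B (t + 1)) ≤ sn l (B t) + 2 * φ) := by
  obtain ⟨φ', hφ'0, hφ', hgap, hjmp⟩ := L.fm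
  obtain ⟨n', hn'⟩ := exists_nat_ge ((x - w) / φ')
  obtain ⟨N, bw, b0, bN, hbw', hs⟩ := gseq (h := 3 * φ') (ρ₀ := φ') hw (by linarith) n' x hx hwx
    (by
      rw [div_le_iff₀ hφ'0] at hn'
      linarith) (fun y h1 h2 => hgap y (hbw.trans h1) (h2.trans hxo))
  refine ⟨N, fun t => bw (N - t), by simp [bN], by simp [b0], fun t _ => hbw' _ (by omega),
    fun t ht => ?_⟩
  obtain ⟨h1, h2⟩ := hs (N - (t + 1)) (by omega)
  have e : N - (t + 1) + 1 = N - t := by omega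
  rw [e] at h1 h2
  obtain ⟨g1, g2, g3⟩ := hbw' (N - t) (by omega)
  obtain ⟨g4, g5, g6⟩ := hbw' (N - (t + 1)) (by omega)
  exact ⟨h1, by linarith, fun l hl hl' => hjmp l hl hl' _ g1 _ g4 (hbw.trans g2) h1
    (g6.trans hxo) h2⟩

/-- **(JT) at a tie.** All own jets of the target `c r`, `r = k + f`, over labels of the window `w`,
to the radius `q`, from the record at `x` and from the jets of the places below. -/
theorem jt_t (K : ℕ) {h : ℝ} (hh : 0 < h) (hh1 : h ≤ 1) {ε : ℝ} (hε : 0 < ε) (r : ℕ) :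
    ∃ δ : ℝ, 0 < δ ∧
    ∀ {m : ℕ} {S : PCl m} {c : ℕ → Fin m} {k f : ℕ} {sn : ℕ → ℝ → ℝ} {G : Set ℝ} {b o φ : ℝ},
    k + f = r → LadT S c k f sn G b o φ → ∀ {α γ : ∀ J : ℕ, Fam m J → Type}
    {fe : ∀ (J : ℕ) (F : Fam m J), F.Ω → α J F} {y : ∀ (J : ℕ) (F : Fam m J), F.Ω → γ J F},
    (∀ (J : ℕ) (F : Fam m J), ∃ χ : α J F → PtT F, ∀ ω, ptr F J ω = χ (fe J F ω)) →
    Kn ((range 0).image c) 1 1 y → ∀ {w x ox q g₀ e₁ : ℝ} {n E rd : ℕ → ℝ} {U₀ : Type}
    {Qu : Qt m U₀}, w ∈ G → x ∈ G →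
    b ≤ w → w < x → x ≤ o → x ≤ ox → ox ≤ 1 → 0 < q → 0 < g₀ → 0 ≤ sn r w →
    sn r w + q + E r + g₀ ≤ 1 → x + q + 60 * ((r : ℝ) + 2) * φ ≤ 1 →
    (∀ i ≤ r, 0 ≤ E i ∧ E i ≤ 1) → (∀ i ≤ r, 0 ≤ rd i ∧ rd i + g₀ ≤ 1) →
    (∀ i < r, n i + E i + g₀ ≤ 1) → Nst r sn w φ n →
    (∀ i < r, sn i x + 60 * ((r : ℝ) + 2) * φ ≤ n i) →
    (∀ i < r, q + 60 * ((r : ℝ) + 2) * φ ≤ n i - sn i w) →
    (∀ i < k, sn r x - sn r w + 60 * φ ≤ n i - sn i w) →
    q + 60 * φ ≤ sn r x - sn r w → 60 * ((r : ℝ) + 2) ^ 2 * φ ≤ δ * q →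
    (∀ q' : ℝ, 0 ≤ q' → q' ≤ q →
      RawN S ((range r).image c) (c r) (sn r w) q' h (δ * q)) →
    (∀ e : ℝ, 0 < e → Bas S (fun J F A => ∃ (V : Type) (z : PtT F → V) (z' : LnT F → V)
      (g : V → ℕ → MvPolynomial (Option (Fin m)) ℝ),
      LbE F c (r + 1) K E e w rd (fun l => sn l w) A z z' g)) →
    0 < e₁ → (∀ e : ℝ, 0 < e → e ≤ e₁ → ∀ l < r, ∀ j < K + 3, F1 S fe (vg ox) y Qu
      (qJet m ((range l).image c) (c l) j w (sn l w) (n l - j * w)) e (δ * q)) →
    ∃ e₀ : ℝ, 0 < e₀ ∧ e₀ ≤ e₁ ∧ ∀ e : ℝ, 0 < e → e ≤ e₀ → ∀ (Jm : ℕ) (Pt : ℝ),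
      sn r w - φ ≤ Pt → F1 S fe (vg ox) y Qu (qJets m c r (r + 1) Jm (fun _ _ => w)
        (fun _ _ => Pt) (fun _ j => sn r w + q - (j : ℕ) * w)) e (ε * q) := by
  obtain ⟨δ₀, hδ₀, H⟩ := Pool.AJX.jt_Q K hh hh1 hε
  obtain ⟨δ, hδd⟩ : ∃ δ : ℝ, δ = δ₀ / 2 / ((r + 1) * (K + 3)) := ⟨_, rfl⟩
  have hrK : (1 : ℝ) ≤ (r + 1) * (K + 3) := by
    have h1 : (0 : ℝ) ≤ r := Nat.cast_nonneg r
    have h2 : (0 : ℝ) ≤ K := Nat.cast_nonneg K
    nlinarith
  have hδ : 0 < δ := by rw [hδd]; positivity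
  have hδle : δ ≤ δ₀ := by
    rw [hδd, div_le_iff₀ (by positivity)]
    nlinarith
  refine ⟨δ, hδ, ?_⟩
  intro m S c k f sn G b o φ hkf L α γ fe y hf hy w x ox q g₀ e₁ n E rd U₀ Qu hw hx hbw hwx hxo hox
    hox1 hq hg₀ hs0 hs1 hxq hE hrd hn1 hn hnx hnq hnX hqx hφδ hraw hlb he₁ hF
  subst hkf
  obtain ⟨C₀, htm⟩ := L.tm
  have hφ := L.φ0
  have Ld := L.toLadR.lad
  have hr0 : (0 : ℝ) ≤ ((k + f : ℕ) : ℝ) := Nat.cast_nonneg _
  have hrφ : 0 ≤ ((k + f : ℕ) : ℝ) * φ := by positivity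
  obtain ⟨M, B, hB0, hBM, hBG, hBs⟩ := latt_mesh L hw hx hbw hwx.le hxo
  have hx1 : x + 120 * φ ≤ 1 := by nlinarith
  have hw0 : 0 ≤ w := L.b0.trans hbw
  -- the margins
  have m1 : ∀ i < k + f, sn i x + 120 * φ ≤ n i := fun i hi => by
    have := hnx i hi
    nlinarith
  have m2 : ∀ i < k + f, q + 120 * φ ≤ n i - sn i w := fun i hi => by
    have := hnq i hi
    nlinarith
  -- the slopes
  have u1 : ∀ i < k, ∀ v ∈ G, w ≤ v → v ≤ x → sn i v ≤ sn i w + (v - w) + 2 * φ :=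
    fun i hi v hv h1 h2 => by
      have := abs_le.1 (Ld.flat hi hv hw (hbw.trans h1) (h2.trans hxo) hbw (hwx.le.trans hxo))
      linarith [this.2]
  have u2 : ∀ i < k, ∀ v ∈ G, w ≤ v → v ≤ x → sn i w + (v - w) - 2 * φ ≤ sn i v :=
    fun i hi v hv h1 h2 => by
      have := abs_le.1 (Ld.flat hi hv hw (hbw.trans h1) (h2.trans hxo) hbw (hwx.le.trans hxo))
      linarith [this.1]
  have u3 : ∀ i, k ≤ i → i ≤ k + f → ∀ v ∈ G, ∀ v' ∈ G, w ≤ v → v ≤ v' → v' ≤ x →
      sn i v + (v' - v) - φ ≤ sn i v' := fun i hi hi' v hv v' hv' h1 h2 h3 => by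
    have := L.st i hi hi' v hv v' hv' (hbw.trans h1) h2 (h3.trans hxo)
    linarith
  -- equal slopes
  have u4 : ∀ i i', k ≤ i → i ≤ k + f → k ≤ i' → i' ≤ k + f → ∀ v ∈ G, ∀ v' ∈ G, w ≤ v → v ≤ v' →
      v' ≤ x → sn i v' - sn i v ≤ sn i' v' - sn i' v + 2 * φ :=
    fun i i' hi hi1 hi' hi1' v hv v' hv' h1 h2 h3 => by
      have a1 := abs_le.1 (L.eqa hi hi1 v hv v' hv' (hbw.trans h1) h2 (h3.trans hxo))
      have a2 := abs_le.1 (L.eqa hi' hi1' v hv v' hv' (hbw.trans h1) h2 (h3.trans hxo))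
      linarith [a1.2, a2.1]
  -- for all places: monotone
  have u5 : ∀ i ≤ k + f, ∀ v ∈ G, w ≤ v → v ≤ x → sn i w + (v - w) - 2 * φ ≤ sn i v :=
    fun i hi v hv h1 h2 => by
      rcases Nat.lt_or_ge i k with h3 | h3
      · exact u2 i h3 v hv h1 h2
      · have := u3 i h3 hi w hw v hv le_rfl h1 h2
        linarith
  have ust : ∀ i < k + f, ∀ t < M, sn i (B (t + 1)) ≤ sn i (B t) + 7 * φ := fun i hi t ht => by
    obtain ⟨h1, h2, h3⟩ := hBG t ht.le
    obtain ⟨h4, h5, h6⟩ := hBG (t + 1) ht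
    obtain ⟨h7, h8, h9⟩ := hBs t ht
    rcases Nat.lt_or_ge i k with h10 | h10
    · have e1 := u1 i h10 _ h4 h5 h6
      have e2 := u2 i h10 _ h1 h2 h3
      linarith
    · have := h9 i h10 hi.le
      linarith
  have udn : ∀ i ≤ k + f, ∀ t < M, sn i (B t) - 4 * φ ≤ sn i (B (t + 1)) := fun i hi t ht => by
    obtain ⟨h1, h2, h3⟩ := hBG t ht.le
    obtain ⟨h4, h5, h6⟩ := hBG (t + 1) ht
    obtain ⟨h7, h8, h9⟩ := hBs t ht
    rcases Nat.lt_or_ge i k with h10 | h10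
    · have e1 := u1 i h10 _ h1 h2 h3
      have e2 := u2 i h10 _ h4 h5 h6
      linarith
    · have := u3 i h10 hi _ h1 _ h4 h2 h7 h6
      linarith
  -- the nested digits at the windows between `w` and `x`
  have une : ∀ l < k + f, ∀ l' < l, ∀ v ∈ G, w ≤ v → v ≤ x →
      n l - sn l v + 16 * φ ≤ n l' - sn l' v := fun l hl l' hl' v hv h1 h2 => by
    have e3 := hn.ne l hl l' hl'
    rcases Nat.lt_or_ge l k with h3 | h3
    · have e1 := u2 l h3 v hv h1 h2
      have e2 := u1 l' (by omega) v hv h1 h2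
      linarith
    · rcases Nat.lt_or_ge l' k with h4 | h4
      · have e1 := u3 l h3 hl.le w hw v hv le_rfl h1 h2
        have e2 := u1 l' h4 v hv h1 h2
        linarith
      · have e1 := u4 l' l h4 (by omega) h3 hl.le w hw v hv le_rfl h1 h2
        linarith
  have HM : MshX S c 0 (k + f) B M sn n n (1 - φ) φ := by
    constructor
    · exact Nat.zero_le _
    · exact hφ
    · rw [hB0]; exact hw0
    · exact fun t ht => (hBs t ht).1
    · rw [hBM]; linarith
    · linarith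
    · intro t ht
      obtain ⟨u₁, rv, hrv, hcv⟩ := L.ch.ch (B t) (hBG t ht).1
      exact ⟨u₁, rv, hcv, fun l _ hl => hrv l hl⟩
    · intro t ht i _ hi N
      rcases Nat.lt_or_ge i (k + f) with h1 | h1
      · obtain ⟨u₁, rv, hrv, hcv⟩ := L.ch.ch (B t) (hBG t ht).1
        exact exs_jet (hrv i h1) (hcv.att i (Nat.zero_le _) h1)
      · obtain rfl : i = k + f := by omega
        exact L.toLadR.ext (hBG t ht).1
    · exact fun l _ _ => le_rfl
    · intro t ht l _ hl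
      obtain ⟨h1, h2, h3⟩ := hBG t ht
      have e3 := m1 l hl
      have e4 : sn l (B t) ≤ sn l x + 4 * φ := by
        rcases Nat.lt_or_ge l k with h4 | h4
        · have e1 := u1 l h4 _ h1 h2 h3
          have e2 := u2 l h4 x hx hwx.le le_rfl
          linarith
        · have := u3 l h4 hl.le _ h1 x hx h2 h3 le_rfl
          linarith
      linarith
    · intro t ht l _ hl
      obtain ⟨h1, h2, h3⟩ := hBG t ht
      have e1 := u5 l hl.le _ h1 h2 h3
      have e3 := hn.hi l hl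
      linarith
    · intro t ht l _ hl l' _ hl'
      obtain ⟨h1, h2, h3⟩ := hBG t ht
      have := une l hl l' hl' _ h1 h2 h3
      linarith
    · intro t ht l _ hl
      obtain ⟨h1, h2, h3⟩ := hBG t ht.le
      obtain ⟨h4, h5, h6⟩ := hBG (t + 1) ht
      obtain ⟨h7, h8, -⟩ := hBs t ht
      have e1 := u5 l hl.le _ h1 h2 h3
      have e2 := u5 l hl.le _ h4 h5 h6
      have e3 := hn.hi l hl
      have : n l + φ - (1 - φ - B (t + 1)) ≤ min (sn l (B t)) (sn l (B (t + 1))) :=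
        le_min (by linarith) (by linarith)
      linarith
    · intro t ht l _ hl l' _ hl'
      obtain ⟨h1, h2, h3⟩ := hBG t ht.le
      obtain ⟨h4, h5, h6⟩ := hBG (t + 1) ht
      have e1 := une l hl l' hl' _ h1 h2 h3
      have e2 := une l hl l' hl' _ h4 h5 h6
      have e3 := ust l' (by omega) t ht
      have : n l + 2 * φ - (n l' - sn l' (B (t + 1))) ≤ min (sn l (B t)) (sn l (B (t + 1))) :=
        le_min (by linarith) (by linarith)
      linarith
  have hN : ∀ i, 0 ≤ i → i < k + f → TgtN 0 i B M sn n (1 - φ) φ (sn i x - φ) ∧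
      sn i x - φ ≤ n i := by
    intro i _ hi
    refine ⟨⟨?_, fun t ht => ?_, fun t ht l _ hl => ?_⟩, ?_⟩
    · rw [hBM]; linarith
    · obtain ⟨h1, h2, h3⟩ := hBG t ht.le
      obtain ⟨h4, h5, h6⟩ := hBG (t + 1) ht
      obtain ⟨h7, h8, -⟩ := hBs t ht
      have e1 := u5 i hi.le _ h1 h2 h3
      have e2 := u5 i hi.le _ h4 h5 h6
      have e3 := m1 i hi
      have e4 := hn.hi i hi
      have : sn i x - φ + φ - (1 - φ - B (t + 1)) ≤ min (sn i (B t)) (sn i (B (t + 1))) :=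
        le_min (by linarith) (by linarith)
      linarith
    · obtain ⟨h1, h2, h3⟩ := hBG t ht.le
      obtain ⟨h4, h5, h6⟩ := hBG (t + 1) ht
      obtain ⟨h7, h8, -⟩ := hBs t ht
      have hlr : l < k + f := by omega
      have e3 := m1 l hlr
      have e9 := ust l hlr t ht
      -- the digits of `l` at the window `v`, against the growth of `i` from `v` to `x`
      have key : ∀ v ∈ G, w ≤ v → v ≤ x → sn i x - sn i v + 20 * φ ≤ n l - sn l v := by
        intro v hv h10 h11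
        rcases Nat.lt_or_ge i k with h12 | h12
        · have a1 := u1 i h12 x hx hwx.le le_rfl
          have a2 := u2 i h12 v hv h10 h11
          have a3 := u1 l (by omega) v hv h10 h11
          have a4 := u2 l (by omega) x hx hwx.le le_rfl
          linarith
        · rcases Nat.lt_or_ge l k with h13 | h13
          · have a1 := u4 i (k + f) h12 hi.le (by omega) le_rfl w hw x hx le_rfl hwx.le le_rfl
            have a2 := u3 i h12 hi.le w hw v hv le_rfl h10 h11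
            have a3 := u1 l h13 v hv h10 h11
            have a4 := hnX l h13
            linarith
          · have a1 := u4 i l h12 hi.le h13 hlr.le v hv x hx h10 h11 le_rfl
            linarith
      have e5 := key _ h1 h2 h3
      have e6 := key _ h4 h5 h6
      have : sn i x - φ + 2 * φ - (n l - sn l (B (t + 1))) ≤
          min (sn i (B t)) (sn i (B (t + 1))) :=
        le_min (by linarith) (by linarith)
      linarith
    · have := m1 i hi
      linarith
  have hNr : TgtN 0 (k + f) B M sn n (1 - φ) φ (sn (k + f) (B 0) + q) := by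
    rw [hB0]
    refine ⟨?_, fun t ht => ?_, fun t ht l _ hl => ?_⟩
    · rw [hBM]; linarith
    · obtain ⟨h1, h2, h3⟩ := hBG t ht.le
      obtain ⟨h4, h5, h6⟩ := hBG (t + 1) ht
      obtain ⟨h7, h8, -⟩ := hBs t ht
      have e1 := u3 (k + f) (by omega) le_rfl w hw _ h1 le_rfl h2 h3
      have e2 := u3 (k + f) (by omega) le_rfl w hw _ h4 le_rfl h5 h6
      have : sn (k + f) w + q + φ - (1 - φ - B (t + 1)) ≤
          min (sn (k + f) (B t)) (sn (k + f) (B (t + 1))) :=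
        le_min (by nlinarith) (by nlinarith)
      linarith
    · obtain ⟨h1, h2, h3⟩ := hBG t ht.le
      obtain ⟨h4, h5, h6⟩ := hBG (t + 1) ht
      obtain ⟨h7, h8, -⟩ := hBs t ht
      have e3 := m2 l hl
      have e9 := ust l hl t ht
      have key : ∀ v ∈ G, w ≤ v → v ≤ x → sn (k + f) w + q - sn (k + f) v + 20 * φ ≤
          n l - sn l v := by
        intro v hv h10 h11
        rcases Nat.lt_or_ge l k with h13 | h13
        · have a2 := u3 (k + f) (by omega) le_rfl w hw v hv le_rfl h10 h11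
          have a3 := u1 l h13 v hv h10 h11
          linarith
        · have a1 := u4 l (k + f) h13 hl.le (by omega) le_rfl w hw v hv le_rfl h10 h11
          linarith
      have e5 := key _ h1 h2 h3
      have e6 := key _ h4 h5 h6
      have : sn (k + f) w + q + 2 * φ - (n l - sn l (B (t + 1))) ≤
          min (sn (k + f) (B t)) (sn (k + f) (B (t + 1))) :=
        le_min (by linarith) (by linarith)
      linarith
  have hsum : ∑ i ∈ Finset.Ico 0 (k + f), (sn i (B M) - (sn i x - φ)) ≤ δ₀ * q := by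
    rw [hBM]
    have e1 : ∑ i ∈ Finset.Ico 0 (k + f), (sn i x - (sn i x - φ)) = ((k + f : ℕ) : ℝ) * φ := by
      rw [Finset.sum_congr rfl fun i _ => (by ring : sn i x - (sn i x - φ) = φ),
        Finset.sum_const, Nat.card_Ico, Nat.sub_zero, nsmul_eq_mul]
    rw [e1]
    have h1 : δ * q ≤ δ₀ * q := mul_le_mul_of_nonneg_right hδle hq.le
    refine le_trans ?_ (hφδ.trans h1)
    have : 0 ≤ ((k + f : ℕ) : ℝ) * (((k + f : ℕ) : ℝ) * φ) := by positivity
    nlinarith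
  have HT : TwoN 0 (k + f) (B 0) (1 - φ) (5 * φ) (fun l => sn l (B 0)) n
      (fun l => n l - sn l w - 10 * φ) := by
    rw [hB0]
    refine ⟨by positivity, fun l _ hl => ?_, fun l _ hl => ?_, fun l _ hl => ?_,
      fun l _ hl l' _ hl' => ?_, fun l _ hl => ?_, fun l _ hl l' _ hl' => ?_⟩
    · show 0 < n l - sn l w - 10 * φ
      linarith [hn.lo l hl]
    · show sn l w + (n l - sn l w - 10 * φ) + 5 * φ ≤ n l
      linarith
    · show n l - sn l w - 10 * φ + 5 * φ ≤ 1 - φ - w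
      linarith [hn.hi l hl]
    · show n l - sn l w - 10 * φ + 5 * φ ≤ n l' - sn l' w - 10 * φ
      linarith [hn.ne l hl l' hl']
    · show n l + 5 * φ ≤ sn l w + (1 - φ - w)
      linarith [hn.hi l hl]
    · show n l + 5 * φ ≤ sn l w + (n l' - sn l' w - 10 * φ)
      linarith [hn.ne l hl l' hl']
  obtain ⟨u₁, rd', -, hch⟩ := L.ch.ch w hw
  have hyl : Kn ((range 0).image c) (w + (1 - φ - w)) (1 - φ - w) y := kn_zero hy
  have hctx : ∀ e : ℝ, 0 < e → e ≤ e₁ →
      FwX S fe (vg ox) y Qu c 0 (k + f + 1) K E w rd (fun l => sn l w)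
        (ctx c 0 (k + f) K w (1 - φ - w) n) e (δ₀ * q) := by
    intro e he hle K₀
    refine ctxK_few htm (fun i _ hi => (hE i hi.le).2) hch.w0 (hwx.le.trans hox) hox1
      (by linarith) he (fun i _ hi => (hrd i hi.le).1) hyl K
      (η := fun _ _ => δ * q) (δ₁ := δ₀ / 2 * q) ?_
      (fun l _ hl j hj => hF e he hle l hl j hj) (by nlinarith) K₀ (k + f + 1) (by omega)
    rw [Finset.sum_const, Finset.sum_const, Nat.card_Ico, Finset.card_range, nsmul_eq_mul,
      nsmul_eq_mul]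
    have h2 : (((k + f) - 0 : ℕ) : ℝ) ≤ ((k + f : ℕ) : ℝ) + 1 := by
      rw [Nat.sub_zero]
      linarith
    push_cast at h2 hδd ⊢
    calc ((k + f - 0 : ℕ) : ℝ) * (((K : ℝ) + 3) * (δ * q)) ≤
          ((k : ℝ) + f + 1) * (((K : ℝ) + 3) * (δ * q)) :=
          mul_le_mul_of_nonneg_right h2 (by positivity)
      _ = δ₀ / 2 * q := by
          rw [hδd]
          field_simp
  obtain ⟨e₀, he₀, he₀1, HP⟩ := H htm HM (q := q) (g₀ := g₀) (E := E) (rd := rd)
    (N := fun i => sn i x - φ) (fun i _ hi => hE i hi) hq (by rw [hB0]; exact hs0) hg₀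
    (by rw [hB0]; exact hs1) (fun i _ hi => hrd i hi) (fun i _ hi => hn1 i hi) (by linarith)
    (by rw [hB0]; nlinarith) hN hNr hsum HT hφ.le (by linarith)
    (by rw [hB0]; nlinarith) (fun l _ hl => by
      show q + 5 * φ ≤ n l - sn l w - 10 * φ
      have := m2 l hl
      linarith)
    (Qu := Qu) (f := fe) (y := y) (a := ox)
    (e₁ := e₁) hf (kn_zero hy) (by rw [hBM]; exact hox) hox1 he₁
    (by rw [hB0]; exact hctx) (by
      rw [hB0]
      exact fun q' h1 h2 => by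
        have := hraw q' h1 h2
        exact this.mono (mul_le_mul_of_nonneg_right hδle hq.le))
    (by
      rw [hB0]
      exact fun e he => Bas.mono 0 (hlb e he) fun J _ F A ⟨V, z, z', g, hl⟩ =>
        ⟨V, z, z', g, fun i _ hi => hl i hi⟩)
  refine ⟨e₀, he₀, he₀1, fun e he hle Jm Pt hPt => ?_⟩
  have h1 := HP e he hle Jm Pt (by rw [hB0]; exact hPt)
  rw [hB0] at h1
  exact h1

end Pool.NVT16
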