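import Pool.Agent.H19.FLN.Own
import Pool.Agent.H2.GEN.AttF

/-!
# A label with the slope of an earlier chart

`slb k P Q ψ`: the polynomial with the slope of `P` in the direction `k` and the values of `Q` on the
graph of `ψ`. `slab_box`: a point of the natural box of the last chart of a chain is in the dilated
boxes of all the charts. `slab_alg`: for two places of equal slopes the polynomial `slb` of the first
and of the last chart is near the last chart on its natural box.
-/

set_option autoImplicit false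

namespace Pool.NVT16

open Finset Real MvPolynomial
open Pool.Agent.H49.Ent Pool.Agent.H32.Dense Pool.STK Pool.KA Pool.KSAT Pool.K2S Pool.PB Pool.GEN
open Pool.S6C Pool.RCD Pool.LA91

variable {m : ℕ}

/-- Substitution of a polynomial for a coordinate. -/
noncomputable def sbj (k : Fin m) (ψ Q : MvPolynomial (Option (Fin m)) ℝ) :
    MvPolynomial (Option (Fin m)) ℝ := aeval (Function.update X (some k) ψ) Q

/-- The slope of `P` in the direction `k`, the values of `Q` on the graph of `ψ`. -/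
noncomputable def slb (k : Fin m) (P Q ψ : MvPolynomial (Option (Fin m)) ℝ) :
    MvPolynomial (Option (Fin m)) ℝ := P + sbj k ψ (Q - P)

theorem eval_sbj (k : Fin m) (ψ Q : MvPolynomial (Option (Fin m)) ℝ) (b : Option (Fin m) → ℝ) :
    eval b (sbj k ψ Q) = eval (Function.update b (some k) (eval b ψ)) Q := by
  have h1 : sbj k ψ Q = bind₁ (Function.update X (some k) ψ) Q := rfl
  rw [h1, eval, eval₂Hom_bind₁]
  congr 1
  congr 1
  funext j
  show eval b (Function.update X (some k) ψ j) = _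
  by_cases h : j = some k
  · subst h
    rw [Function.update_self, Function.update_self]
    rfl
  · rw [Function.update_of_ne h, Function.update_of_ne h, eval_X]

theorem eval_slb (k : Fin m) (P Q ψ : MvPolynomial (Option (Fin m)) ℝ) (b : Option (Fin m) → ℝ) :
    eval b (slb k P Q ψ) = eval b P +
      (eval (Function.update b (some k) (eval b ψ)) Q -
        eval (Function.update b (some k) (eval b ψ)) P) := by
  unfold slb
  rw [map_add, eval_sbj, map_sub]

theorem deg_sbj (k : Fin m) {ψ Q : MvPolynomial (Option (Fin m)) ℝ} {D : ℕ} (hD : 1 ≤ D)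
    (hψ : ψ.totalDegree ≤ D) (hQ : Q.totalDegree ≤ D) : (sbj k ψ Q).totalDegree ≤ D * D := by
  refine totalDegree_aevalσ (fun i => ?_) hQ
  by_cases h : i = some k
  · subst h
    rw [Function.update_self]
    exact hψ
  · rw [Function.update_of_ne h, totalDegree_X]
    exact hD

theorem deg_slb (k : Fin m) {P Q ψ : MvPolynomial (Option (Fin m)) ℝ} {D : ℕ} (hD : 1 ≤ D)
    (hP : P.totalDegree ≤ D) (hQ : Q.totalDegree ≤ D) (hψ : ψ.totalDegree ≤ D) :
    (slb k P Q ψ).totalDegree ≤ D * D := by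
  unfold slb
  refine (totalDegree_add _ _).trans (max_le (hP.trans (Nat.le_mul_of_pos_left _ (by omega))) ?_)
  exact deg_sbj k hD hψ ((totalDegree_sub _ _).trans (max_le hQ hP))

theorem dep_slb {c : ℕ → Fin m} {k : ℕ}
    {P Q ψ : MvPolynomial (Option (Fin m)) ℝ} (hP : DepC c (k + 1) P) (hQ : DepC c (k + 1) Q)
    (hψ : DepC c k ψ) : DepC c (k + 1) (slb (c k) P Q ψ) := by
  intro b b' h0 h1
  rw [eval_slb, eval_slb, hP b b' h0 h1, hψ b b' h0 fun l hl => h1 l (by omega)]
  have h2 : ∀ l < k + 1, Function.update b (some (c k)) (eval b' ψ) (some (c l)) =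
      Function.update b' (some (c k)) (eval b' ψ) (some (c l)) := by
    intro l hl
    by_cases h : (some (c l) : Option (Fin m)) = some (c k)
    · rw [h, Function.update_self, Function.update_self]
    · rw [Function.update_of_ne h, Function.update_of_ne h, h1 l hl]
  have h3 : Function.update b (some (c k)) (eval b' ψ) none =
      Function.update b' (some (c k)) (eval b' ψ) none := by
    rw [Function.update_of_ne (by simp), Function.update_of_ne (by simp), h0]
  rw [hQ _ _ h3 h2, hP _ _ h3 h2]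

/-- The exponents of the dilations. -/
def cbl (c₀ D₁ : ℕ) : ℕ → ℕ
  | 0 => 0
  | l + 1 => c₀ + cbl c₀ D₁ l * D₁ + cbl c₀ D₁ l + 6

theorem cbl_mono (c₀ D₁ : ℕ) {l l' : ℕ} (h : l ≤ l') : cbl c₀ D₁ l ≤ cbl c₀ D₁ l' := by
  induction h with
  | refl => exact le_rfl
  | step _ ih =>
    refine ih.trans ?_
    show _ ≤ c₀ + cbl c₀ D₁ _ * D₁ + cbl c₀ D₁ _ + 6
    omega

/-- **The boxes of all the charts.** `κ`: shifts. -/
theorem slab_box (D k : ℕ) : ∃ C : ℕ, ∀ {m : ℕ} {c : ℕ → Fin m} {n Y : ℕ}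
    {ψ : ℕ → ℕ → MvPolynomial (Option (Fin m)) ℝ} {κ : ℕ → ℕ → ℝ} {g : ℕ → ℕ → ℕ} {o : ℕ → ℕ}
    {T : ℝ}, Set.InjOn c (Set.Iio (k + 2)) →
    (∀ t l, (ψ t l).totalDegree ≤ D) → (∀ t l, DepC c l (ψ t l)) →
    (∀ t < n, ∀ l ≤ k, ∀ b, NBx c (ψ (t + 1)) (g (t + 1)) (o (t + 1)) T l b →
      |eval b (ψ t l) + κ t l - eval b (ψ (t + 1) l)| ≤ 2 ^ Y / 2 ^ g (t + 1) l) →
    (∀ t < n, ∀ l ≤ k, |κ t l| ≤ 2 ^ Y / 2 ^ g (t + 1) l) →
    (∀ t ≤ n, o t ≤ o n) →
    (∀ t ≤ n, ∀ t' ≤ n, t ≤ t' → ∀ l ≤ k, g t l ≤ g t' l + Y) → n ≤ 2 ^ Y →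
    ∀ b, NBx c (ψ n) (g n) (o n) T (k + 1) b → ∀ l ≤ k, ∀ t ≤ n,
      |b (some (c l)) - eval b (ψ t l)| ≤ 2 ^ (C * (Y + 1)) / 2 ^ g t l := by
  obtain ⟨c₀, D₁, hD₁, hdil⟩ := Pool.CHT.nbx_dil (k + 2) (fun _ => D)
  refine ⟨cbl c₀ D₁ (k + 1), ?_⟩
  intro m c n Y ψ κ g o T hc hdeg hdep hstep hκ ho hg hn b hb
  have h2n : ∀ x : ℕ, (0 : ℝ) < 2 ^ x := fun x => by positivity
  have hnR : (n : ℝ) ≤ 2 ^ Y := by exact_mod_cast hn
  have htime : ∀ t ≤ n, |b none - T| ≤ 1 / 2 ^ o t := fun t ht =>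
    hb.1.trans (div_le_div_of_nonneg_left (by norm_num) (h2n _)
      (pow_le_pow_right₀ (by norm_num) (ho t ht)))
  have key : ∀ l ≤ k + 1, ∀ l' < l, ∀ t ≤ n,
      |b (some (c l')) - eval b (ψ t l')| ≤ 2 ^ (cbl c₀ D₁ l * (Y + 1)) / 2 ^ g t l' := by
    intro l
    induction l with
    | zero => exact fun _ l' hl' => by omega
    | succ l ih =>
      intro hl l' hl' t ht
      have ih' := ih (by omega)
      obtain ⟨E, hE⟩ : ∃ E, E = cbl c₀ D₁ l * (Y + 1) := ⟨_, rfl⟩
      have hE1 : cbl c₀ D₁ (l + 1) * (Y + 1) = (c₀ + 6) * (Y + 1) + E * D₁ + E := by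
        show (c₀ + cbl c₀ D₁ l * D₁ + cbl c₀ D₁ l + 6) * (Y + 1) = _
        rw [hE]
        ring
      rcases Nat.lt_or_ge l' l with h7 | h7
      · refine (ih' l' h7 t ht).trans (div_le_div_of_nonneg_right
          (pow_le_pow_right₀ (by norm_num) ?_) (h2n _).le)
        exact Nat.mul_le_mul_right _ (cbl_mono c₀ D₁ (Nat.le_succ l))
      have hll : l' = l := by omega
      subst hll
      have hlk : l' ≤ k := by omega
      -- the steps
      have hs : ∀ i < n, t ≤ i → |eval b (ψ i l') - eval b (ψ (i + 1) l')| ≤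
          2 ^ (c₀ + E * D₁ + 2 * Y + 1) / 2 ^ g t l' := by
        intro i hi hti
        have h1 := hdil (c := c) (i := l') (G := ψ (i + 1)) (Q := ψ i l' + C (κ i l') - ψ (i + 1) l')
          (g := g (i + 1)) (a := o (i + 1)) (t := T) (M := 2 ^ Y / 2 ^ g (i + 1) l') E (by omega)
          (hc.mono fun x hx => by rw [Set.mem_Iio] at hx ⊢; omega) (hdeg (i + 1)) (hdep (i + 1))
          (fun y y' hy hy' => by
            rw [map_sub, map_add, map_sub, map_add, eval_C, eval_C, hdep i l' y y' hy hy',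
              hdep (i + 1) l' y y' hy hy'])
          ((totalDegree_sub _ _).trans (max_le ((totalDegree_add _ _).trans
            (max_le (hdeg i l') (by rw [totalDegree_C]; exact Nat.zero_le _))) (hdeg _ _)))
          (by positivity) (fun y hy => by
            rw [map_sub, map_add, eval_C]
            exact hstep i hi l' hlk y hy) b (htime _ (by omega)) (fun j hj => by
            rw [hE]
            exact ih' j hj (i + 1) (by omega))
        rw [map_sub, map_add, eval_C] at h1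
        have h2 := hκ i hi l' hlk
        have h3 : |eval b (ψ i l') - eval b (ψ (i + 1) l')| ≤
            2 ^ (c₀ + E * D₁) * (2 ^ Y / 2 ^ g (i + 1) l') + 2 ^ Y / 2 ^ g (i + 1) l' := by
          rw [abs_le] at h1 h2 ⊢
          constructor <;> linarith only [h1.1, h1.2, h2.1, h2.2]
        refine h3.trans ?_
        have h4 : (2 : ℝ) ^ Y / 2 ^ g (i + 1) l' ≤ 2 ^ (2 * Y) / 2 ^ g t l' := by
          rw [div_le_div_iff₀ (h2n _) (h2n _), ← pow_add, ← pow_add]
          refine pow_le_pow_right₀ (by norm_num) ?_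
          have := hg t ht (i + 1) (by omega) (by omega) l' hlk
          omega
        have h5 : (1 : ℝ) ≤ 2 ^ (c₀ + E * D₁) := one_le_pow₀ (by norm_num)
        have h6 : (2 : ℝ) ^ (c₀ + E * D₁ + 2 * Y + 1) / 2 ^ g t l' =
            2 * 2 ^ (c₀ + E * D₁) * (2 ^ (2 * Y) / 2 ^ g t l') := by
          rw [pow_succ, pow_add]
          ring
        rw [h6]
        have h8 : (0 : ℝ) < 2 ^ Y / 2 ^ g (i + 1) l' := by positivity
        nlinarith
      -- the sum
      have hsum : |eval b (ψ t l') - eval b (ψ n l')| ≤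
          n * (2 ^ (c₀ + E * D₁ + 2 * Y + 1) / 2 ^ g t l') := by
        have h1 : eval b (ψ t l') - eval b (ψ n l') =
            ∑ i ∈ range (n - t), (eval b (ψ (t + i) l') - eval b (ψ (t + (i + 1)) l')) := by
          rw [Finset.sum_range_sub' (fun i => eval b (ψ (t + i) l')), Nat.add_zero,
            show t + (n - t) = n by omega]
        rw [h1]
        have h2 : ∑ i ∈ range (n - t), |eval b (ψ (t + i) l') - eval b (ψ (t + (i + 1)) l')| ≤
            ∑ _i ∈ range (n - t), (2 : ℝ) ^ (c₀ + E * D₁ + 2 * Y + 1) / 2 ^ g t l' :=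
          Finset.sum_le_sum fun i hi => by
            have := Finset.mem_range.1 hi
            exact hs (t + i) (by omega) (by omega)
        refine (Finset.abs_sum_le_sum_abs _ _).trans (h2.trans ?_)
        rw [Finset.sum_const, card_range, nsmul_eq_mul]
        refine mul_le_mul_of_nonneg_right ?_ (by positivity)
        exact_mod_cast Nat.sub_le n t
      have h9 := hb.2 l' (by omega)
      have h10 : (1 : ℝ) / 2 ^ g n l' ≤ 2 ^ Y / 2 ^ g t l' := by
        rw [div_le_div_iff₀ (h2n _) (h2n _), one_mul, ← pow_add]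
        refine pow_le_pow_right₀ (by norm_num) ?_
        have := hg t ht n le_rfl ht l' hlk
        omega
      have h11 : |b (some (c l')) - eval b (ψ t l')| ≤
          2 ^ Y / 2 ^ g t l' + 2 ^ Y * (2 ^ (c₀ + E * D₁ + 2 * Y + 1) / 2 ^ g t l') := by
        have h12 : n * ((2 : ℝ) ^ (c₀ + E * D₁ + 2 * Y + 1) / 2 ^ g t l') ≤
            2 ^ Y * (2 ^ (c₀ + E * D₁ + 2 * Y + 1) / 2 ^ g t l') :=
          mul_le_mul_of_nonneg_right hnR (by positivity)
        rw [abs_le] at hsum h9 ⊢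
        constructor <;> linarith only [hsum.1, hsum.2, h9.1, h9.2, h10, h12]
      refine h11.trans ?_
      rw [hE1, ← mul_div_assoc, ← add_div, ← pow_add]
      refine div_le_div_of_nonneg_right ?_ (h2n _).le
      have h13 : (2 : ℝ) ^ Y ≤ 2 ^ (Y + (c₀ + E * D₁ + 2 * Y + 1)) :=
        pow_le_pow_right₀ (by norm_num) (by omega)
      calc (2 : ℝ) ^ Y + 2 ^ (Y + (c₀ + E * D₁ + 2 * Y + 1)) ≤
          2 ^ (Y + (c₀ + E * D₁ + 2 * Y + 1) + 1) := by rw [pow_succ]; linarith
        _ ≤ _ := pow_le_pow_right₀ (by norm_num) (by nlinarith)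
  exact fun l hl t ht => key (k + 1) le_rfl l (by omega) t ht

/-- **The label with the slope of the first chart is near the last chart**, for two places `c k`,
`c (k + 1)` of equal slopes. -/
theorem slab_alg (D k : ℕ) : ∃ C : ℕ, ∀ {m : ℕ} {c : ℕ → Fin m} {n Y : ℕ}
    {ψ : ℕ → ℕ → MvPolynomial (Option (Fin m)) ℝ} {κ : ℕ → ℕ → ℝ} {g : ℕ → ℕ → ℕ} {o : ℕ → ℕ}
    {T : ℝ}, Set.InjOn c (Set.Iio (k + 2)) →
    (∀ t l, (ψ t l).totalDegree ≤ D) → (∀ t l, DepC c l (ψ t l)) →
    (∀ t < n, ∀ l ≤ k + 1, ∀ b, NBx c (ψ (t + 1)) (g (t + 1)) (o (t + 1)) T l b →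
      |eval b (ψ t l) + κ t l - eval b (ψ (t + 1) l)| ≤ 2 ^ Y / 2 ^ g (t + 1) l) →
    (∀ t < n, ∀ l ≤ k, |κ t l| ≤ 2 ^ Y / 2 ^ g (t + 1) l) →
    (∀ t ≤ n, o t ≤ o n) →
    (∀ t ≤ n, ∀ t' ≤ n, t ≤ t' → ∀ l ≤ k, g t l ≤ g t' l + Y) →
    (∀ t ≤ n, g n (k + 1) + g t k ≤ g n k + g t (k + 1) + Y) → n ≤ 2 ^ Y →
    ∀ b, NBx c (ψ n) (g n) (o n) T (k + 1) b →
      |eval b (slb (c k) (ψ 0 (k + 1)) (ψ n (k + 1)) (ψ n k)) - eval b (ψ n (k + 1))| ≤
        2 ^ (C * (Y + 1)) / 2 ^ g n (k + 1) := by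
  obtain ⟨Cb, hbx⟩ := slab_box D k
  obtain ⟨c₀, D₁, hD₁, hdil⟩ := Pool.CHT.nbx_dil (k + 2) (fun _ => D)
  obtain ⟨A, hA, hvar⟩ := Pool.FLN19.var_le D
  obtain ⟨NA, hNA⟩ := pow_unbounded_of_one_lt A (one_lt_two (α := ℝ))
  refine ⟨NA + c₀ + (Cb + 3) * D₁ + 6, ?_⟩
  intro m c n Y ψ κ g o T hc hdeg hdep hstep hκ ho hg hgg hn b hb
  have h2n : ∀ x : ℕ, (0 : ℝ) < 2 ^ x := fun x => by positivity
  have hnR : (n : ℝ) ≤ 2 ^ Y := by exact_mod_cast hn
  have hne : ∀ l < k, (some (c l) : Option (Fin m)) ≠ some (c k) := by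
    intro l hl he
    have := hc (Set.mem_Iio.2 (by omega)) (Set.mem_Iio.2 (by omega)) (Option.some_injective _ he)
    omega
  obtain ⟨β, hβ⟩ : ∃ β, β = eval b (ψ n k) := ⟨_, rfl⟩
  obtain ⟨bs, hbs⟩ : ∃ bs : ℝ → Option (Fin m) → ℝ, bs = fun s =>
    Function.update b (some (c k)) (β + s * (b (some (c k)) - β)) := ⟨_, rfl⟩
  have hbn : ∀ s, bs s none = b none := fun s => by
    rw [hbs]
    exact Function.update_of_ne (by simp) _ _
  have hbl : ∀ s, ∀ l < k, bs s (some (c l)) = b (some (c l)) := fun s l hl => by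
    rw [hbs]
    exact Function.update_of_ne (hne l hl) _ _
  have hbk : ∀ s, bs s (some (c k)) = β + s * (b (some (c k)) - β) := fun s => by
    rw [hbs]
    exact Function.update_self _ _ _
  have hev : ∀ s t l, l ≤ k → eval (bs s) (ψ t l) = eval b (ψ t l) := fun s t l hl =>
    hdep t l _ _ (hbn s) fun l' hl' => hbl s l' (by omega)
  have hb1 : bs 1 = b := by
    rw [hbs]
    funext o'
    by_cases h : o' = some (c k)
    · subst h
      simp only [Function.update_self]
      ring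
    · simp only [Function.update_of_ne h]
  have hb0' : bs 0 = Function.update b (some (c k)) (eval b (ψ n k)) := by
    rw [hbs, hβ]
    simp only [zero_mul, add_zero]
  have hbox0 : NBx c (ψ n) (g n) (o n) T (k + 1) (bs 0) := by
    refine ⟨by rw [hbn]; exact hb.1, fun l hl => ?_⟩
    rcases Nat.lt_or_ge l k with h1 | h1
    · rw [hbl 0 l h1, hev 0 n l h1.le]
      exact hb.2 l hl
    · have : l = k := by omega
      subst this
      rw [hbk, hev 0 n l le_rfl, hβ, zero_mul, add_zero, sub_self, abs_zero]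
      positivity
  have hstep' : ∀ t < n, ∀ l ≤ k, ∀ b, NBx c (ψ (t + 1)) (g (t + 1)) (o (t + 1)) T l b →
      |eval b (ψ t l) + κ t l - eval b (ψ (t + 1) l)| ≤ 2 ^ Y / 2 ^ g (t + 1) l :=
    fun t ht l hl => hstep t ht l (by omega)
  have hB := hbx hc hdeg hdep hstep' hκ ho hg hn b hb
  have hB0 := hbx hc hdeg hdep hstep' hκ ho hg hn (bs 0) hbox0
  -- one step
  obtain ⟨E, hE⟩ : ∃ E, E = Cb * (Y + 1) + Y + 2 := ⟨_, rfl⟩
  have hone : ∀ t < n, |(eval b (ψ t (k + 1)) - eval b (ψ (t + 1) (k + 1))) -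
      (eval (bs 0) (ψ t (k + 1)) - eval (bs 0) (ψ (t + 1) (k + 1)))| ≤
      2 ^ (NA + c₀ + E * D₁ + Y) / 2 ^ g n (k + 1) := by
    intro t ht
    have ht1 : t + 1 ≤ n := ht
    obtain ⟨η, hη⟩ : ∃ η : ℝ, η = 2 ^ g (t + 1) k / (2 ^ g n k * 2 ^ Y) := ⟨_, rfl⟩
    have hη0 : 0 < η := by rw [hη]; positivity
    have hη1 : η ≤ 1 := by
      rw [hη, div_le_one (by positivity), ← pow_add]
      exact pow_le_pow_right₀ (by norm_num) (hg (t + 1) ht1 n le_rfl ht1 k le_rfl)
    obtain ⟨M, hM⟩ : ∃ M : ℝ, M = 2 ^ (c₀ + E * D₁) * (2 ^ Y / 2 ^ g (t + 1) (k + 1)) := ⟨_, rfl⟩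
    obtain ⟨R, hR⟩ : ∃ R : MvPolynomial (Option (Fin m)) ℝ,
      R = ψ t (k + 1) + C (κ t (k + 1)) - ψ (t + 1) (k + 1) := ⟨_, rfl⟩
    have hRd : R.totalDegree ≤ D := by
      rw [hR]
      exact (totalDegree_sub _ _).trans (max_le ((totalDegree_add _ _).trans
        (max_le (hdeg _ _) (by rw [totalDegree_C]; exact Nat.zero_le _))) (hdeg _ _))
    have hRp : DepC c (k + 1) R := by
      intro y y' hy hy'
      rw [hR, map_sub, map_add, map_sub, map_add, eval_C, eval_C, hdep t _ y y' hy hy',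
        hdep (t + 1) _ y y' hy hy']
    have hpt : ∀ s : ℝ, |s| ≤ 1 / η → |eval (bs s) R| ≤ M := by
      intro s hs
      rw [hM]
      refine hdil (c := c) (i := k + 1) (G := ψ (t + 1)) (g := g (t + 1)) (a := o (t + 1)) (t := T)
        (M := 2 ^ Y / 2 ^ g (t + 1) (k + 1)) E (by omega)
        (hc.mono fun x hx => by rw [Set.mem_Iio] at hx ⊢; omega) (hdeg (t + 1)) (hdep (t + 1))
        hRp hRd (by positivity) (fun y hy => by
          rw [hR, map_sub, map_add, eval_C]
          exact hstep t ht (k + 1) le_rfl y hy) (bs s) ?_ (fun l hl => ?_)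
      · rw [hbn]
        exact hb.1.trans (div_le_div_of_nonneg_left (by norm_num) (h2n _)
          (pow_le_pow_right₀ (by norm_num) (ho _ ht1)))
      · have hEle : (2 : ℝ) ^ (Cb * (Y + 1)) ≤ 2 ^ E :=
          pow_le_pow_right₀ (by norm_num) (by omega)
        rw [hev s (t + 1) l (by omega)]
        rcases Nat.lt_or_ge l k with h1 | h1
        · rw [hbl s l h1]
          exact (hB l h1.le (t + 1) ht1).trans (div_le_div_of_nonneg_right hEle (h2n _).le)
        · have : l = k := by omega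
          subst this
          rw [hbk]
          have h3 := hB0 l le_rfl (t + 1) ht1
          rw [hbk, hev 0 (t + 1) l le_rfl, zero_mul, add_zero] at h3
          have h4 : |s * (b (some (c l)) - β)| ≤ 2 ^ Y / 2 ^ g (t + 1) l := by
            rw [abs_mul]
            have h5 := hb.2 l (by omega)
            rw [← hβ] at h5
            calc |s| * |b (some (c l)) - β| ≤ 1 / η * (1 / 2 ^ g n l) :=
                  mul_le_mul hs h5 (abs_nonneg _) (by positivity)
              _ = 2 ^ Y / 2 ^ g (t + 1) l := by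
                rw [hη]
                field_simp
          have h6 : |β + s * (b (some (c l)) - β) - eval b (ψ (t + 1) l)| ≤
              2 ^ (Cb * (Y + 1)) / 2 ^ g (t + 1) l + 2 ^ Y / 2 ^ g (t + 1) l := by
            rw [abs_le] at h3 h4 ⊢
            constructor <;> linarith only [h3.1, h3.2, h4.1, h4.2]
          refine h6.trans ?_
          rw [← add_div]
          refine div_le_div_of_nonneg_right ?_ (h2n _).le
          have h7 : (2 : ℝ) ^ (Cb * (Y + 1)) ≤ 2 ^ (Cb * (Y + 1) + Y) :=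
            pow_le_pow_right₀ (by norm_num) (by omega)
          have h8 : (2 : ℝ) ^ Y ≤ 2 ^ (Cb * (Y + 1) + Y) :=
            pow_le_pow_right₀ (by norm_num) (by omega)
          have h9 : (2 : ℝ) ^ E = 2 ^ (Cb * (Y + 1) + Y) * 2 * 2 := by
            rw [hE, pow_succ, pow_succ]
          rw [h9]
          have h10 := h2n (Cb * (Y + 1) + Y)
          linarith
    -- the polynomial in one variable
    obtain ⟨pl, hpl⟩ : ∃ pl : Option (Fin m) → Polynomial ℝ, pl = fun o' =>
      if o' = some (c k) then Polynomial.C β + Polynomial.C (b (some (c k)) - β) * Polynomial.X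
      else Polynomial.C (b o') := ⟨_, rfl⟩
    have hplev : ∀ s : ℝ, (fun o' => (pl o').eval s) = bs s := by
      intro s
      rw [hpl, hbs]
      funext o'
      by_cases h : o' = some (c k)
      · subst h
        simp only [if_pos, Function.update_self]
        rw [Polynomial.eval_add, Polynomial.eval_mul, Polynomial.eval_C, Polynomial.eval_C,
          Polynomial.eval_X]
        ring
      · simp only [if_neg h, Function.update_of_ne h, Polynomial.eval_C]
    have hpld : ∀ o', (pl o').natDegree ≤ 1 := by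
      intro o'
      rw [hpl]
      dsimp only
      split_ifs
      · refine (Polynomial.natDegree_add_le _ _).trans (max_le ?_ ?_)
        · rw [Polynomial.natDegree_C]
          exact Nat.zero_le _
        · exact (Polynomial.natDegree_C_mul_le _ _).trans Polynomial.natDegree_X_le
      · rw [Polynomial.natDegree_C]
        exact Nat.zero_le _
    have h1 := hvar (MvPolynomial.aeval pl R) M η hη0 hη1
      ((Pool.CHT.natDegree_aeval_mul R pl hpld hRd).trans (by omega)) (fun s hs => by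
        rw [Pool.KBX.eval_aeval_poly, hplev]
        exact hpt s hs)
    rw [Pool.KBX.eval_aeval_poly, Pool.KBX.eval_aeval_poly, hplev, hplev, hb1, hR, map_sub, map_add,
      map_sub, map_add, eval_C, eval_C] at h1
    have h2 : |(eval b (ψ t (k + 1)) - eval b (ψ (t + 1) (k + 1))) -
        (eval (bs 0) (ψ t (k + 1)) - eval (bs 0) (ψ (t + 1) (k + 1)))| ≤ A * M * η := by
      refine le_trans (le_of_eq ?_) h1
      congr 1
      ring
    refine h2.trans ?_
    have h3 : M * η ≤ 2 ^ (c₀ + E * D₁) * 2 ^ Y / 2 ^ g n (k + 1) := by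
      rw [hM, hη]
      have h4 : (2 : ℝ) ^ Y / 2 ^ g (t + 1) (k + 1) * (2 ^ g (t + 1) k / (2 ^ g n k * 2 ^ Y)) ≤
          2 ^ Y / 2 ^ g n (k + 1) := by
        rw [div_mul_div_comm, div_le_div_iff₀ (by positivity) (h2n _), ← pow_add, ← pow_add,
          ← pow_add, ← pow_add, ← pow_add]
        refine pow_le_pow_right₀ (by norm_num) ?_
        have := hgg (t + 1) ht1
        omega
      calc (2 : ℝ) ^ (c₀ + E * D₁) * (2 ^ Y / 2 ^ g (t + 1) (k + 1)) *
          (2 ^ g (t + 1) k / (2 ^ g n k * 2 ^ Y)) =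
          2 ^ (c₀ + E * D₁) * (2 ^ Y / 2 ^ g (t + 1) (k + 1) *
          (2 ^ g (t + 1) k / (2 ^ g n k * 2 ^ Y))) := by ring
        _ ≤ 2 ^ (c₀ + E * D₁) * (2 ^ Y / 2 ^ g n (k + 1)) :=
          mul_le_mul_of_nonneg_left h4 (h2n _).le
        _ = _ := by ring
    have hMη : 0 ≤ M * η := mul_nonneg (by rw [hM]; positivity) hη0.le
    calc A * M * η = A * (M * η) := by ring
      _ ≤ 2 ^ NA * (M * η) := mul_le_mul_of_nonneg_right hNA.le hMη
      _ ≤ 2 ^ NA * (2 ^ (c₀ + E * D₁) * 2 ^ Y / 2 ^ g n (k + 1)) :=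
        mul_le_mul_of_nonneg_left h3 (h2n _).le
      _ = _ := by
        rw [pow_add _ (NA + c₀ + E * D₁) Y, pow_add _ (NA + c₀) (E * D₁), pow_add _ NA c₀,
          pow_add _ c₀ (E * D₁)]
        ring
  -- the sum
  have hsum : |eval b (slb (c k) (ψ 0 (k + 1)) (ψ n (k + 1)) (ψ n k)) - eval b (ψ n (k + 1))| ≤
      n * (2 ^ (NA + c₀ + E * D₁ + Y) / 2 ^ g n (k + 1)) := by
    obtain ⟨f, hf⟩ : ∃ f : ℕ → ℝ, f = fun i =>
      eval b (ψ i (k + 1)) - eval (bs 0) (ψ i (k + 1)) := ⟨_, rfl⟩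
    have h1 : eval b (slb (c k) (ψ 0 (k + 1)) (ψ n (k + 1)) (ψ n k)) - eval b (ψ n (k + 1)) =
        ∑ i ∈ range n, (f i - f (i + 1)) := by
      rw [Finset.sum_range_sub', eval_slb, ← hb0', hf]
      ring
    rw [h1]
    refine (Finset.abs_sum_le_sum_abs _ _).trans ((Finset.sum_le_sum fun i hi => ?_).trans
      (le_of_eq (by rw [Finset.sum_const, card_range, nsmul_eq_mul])))
    have h2 := hone i (Finset.mem_range.1 hi)
    rw [hf]
    refine le_trans (le_of_eq ?_) h2
    congr 1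
    ring
  refine hsum.trans ?_
  calc (n : ℝ) * (2 ^ (NA + c₀ + E * D₁ + Y) / 2 ^ g n (k + 1)) ≤
      2 ^ Y * (2 ^ (NA + c₀ + E * D₁ + Y) / 2 ^ g n (k + 1)) :=
        mul_le_mul_of_nonneg_right hnR (by positivity)
    _ = 2 ^ (Y + (NA + c₀ + E * D₁ + Y)) / 2 ^ g n (k + 1) := by
      rw [pow_add _ Y]
      ring
    _ ≤ _ := by
      refine div_le_div_of_nonneg_right (pow_le_pow_right₀ (by norm_num) ?_) (h2n _).le
      rw [hE]
      nlinarith

end Pool.NVT16
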