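import Pool.Agent.H16.NVT.Slb
import Pool.Agent.H23.D2.Bwj
import Pool.Agent.H23.D2.Adc
import Pool.Agent.H57.AVG.Adm
import Pool.Agent.H95.GN.Til

/-!
# The label with the slope of an earlier window: the event

`slG`, `slH`: the label with the slope of the first window of a chain, on the side of the points and
on the side of the lines. `slab_near`: on the event of `WinB` it is near the chart of the last window.
`slab_win`: all the conditions for the label of the last place in the class theorem of a pair.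
-/

set_option autoImplicit false

namespace Pool.NVT16

open Finset Real MvPolynomial
open Pool.Agent.H49.Ent Pool.Agent.H32.Dense Pool.STK Pool.KA Pool.KSAT Pool.K2S Pool.PB Pool.GEN
open Pool.S6C Pool.RCD Pool.LA91 Pool.D2R
open Pool.AVG57 (upw upw_slam)

variable {m J : ℕ}

/-- The label with the slope of the window `ka`, the values of the window `kw`. -/
noncomputable def slG {F : Fam m J} (c : ℕ → Fin m)
    (G : ℕ → PtT F → ℕ → MvPolynomial (Option (Fin m)) ℝ) (k ka kw : ℕ) (y : PtT F) :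
    MvPolynomial (Option (Fin m)) ℝ := slb (c k) (G ka y (k + 1)) (G kw y (k + 1)) (G kw y k)

/-- The same label, from the line; `a`, `w`: the two windows. -/
noncomputable def slH {F : Fam m J} (c : ℕ → Fin m)
    (H : ℕ → LnT F → ℕ → MvPolynomial (Option (Fin m)) ℝ) (k ka kw a w : ℕ) (s : LnT F) :
    MvPolynomial (Option (Fin m)) ℝ :=
  slb (c k) (H ka (upw a w s) (k + 1)) (H kw s (k + 1)) (H kw s k)

/-- The label is near the chart of the last window, on the event. -/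
theorem slab_near0 (D k : ℕ) : ∃ C : ℕ, 1 ≤ C ∧ ∀ {m J : ℕ} {F : Fam m J} {c : ℕ → Fin m}
    {Dr N M : ℕ} {C₀ a Eb ηm : ℝ} {ow η σ : ℕ → ℝ} {lv bb : ℕ → ℕ → ℝ} {κ : ℝ} {z : ℕ → ℕ → ℕ}
    {A : F.Ω → Prop} {g₀ : ℕ → ℕ → ℕ} {G : ℕ → PtT F → ℕ → MvPolynomial (Option (Fin m)) ℝ}
    {H : ℕ → LnT F → ℕ → MvPolynomial (Option (Fin m)) ℝ} {f : ℕ → ℕ} {n : ℕ} {y : ℝ},
    WinB F c (k + 1) D Dr N M C₀ a Eb ηm ow η σ lv bb κ z A g₀ G H →
    Set.InjOn c (Set.Iio (k + 2)) → (∀ t, f t ≤ N) → (∀ t < n, ow (f t) ≤ ow (f (t + 1))) →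
    (∀ t < n, ∃ j ≤ M, z (f t) j = ⌊ow (f (t + 1)) * J⌋₊ - ⌊ow (f t) * J⌋₊) →
    C₀ * ηm ≤ y → (n : ℝ) ≤ y * J →
    (∀ t < n, ∀ l ≤ k + 1, lv (f (t + 1)) l ≤ lv (f t) l + y) →
    (∀ t ≤ n, ∀ t' ≤ n, t ≤ t' → ∀ l ≤ k, lv (f t) l ≤ lv (f t') l + y) →
    (∀ t ≤ n, lv (f n) (k + 1) + lv (f t) k ≤ lv (f n) k + lv (f t) (k + 1) + y) →
    ∀ ω, A ω → ∀ x, NBx c (G (f n) (ptr F J ω)) (g₀ (f n)) ⌊ow (f n) * J⌋₊ (F.t ω) (k + 1) x →
      |eval x (slG c G k (f 0) (f n) (ptr F J ω)) - eval x (G (f n) (ptr F J ω) (k + 1))| ≤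
        2 ^ (C * (y * J + 1)) / 2 ^ g₀ (f n) (k + 1) := by
  obtain ⟨C, hC⟩ := slab_alg D k
  refine ⟨6 * (C + 1), by omega, ?_⟩
  intro m J F c Dr N M C₀ a Eb ηm ow η σ lv bb κ z A g₀ G H f n y W hc hf how hz hηy hny hs1 hs2
    hs3 ω hω x hx
  have hJ0 : (0 : ℝ) ≤ J := Nat.cast_nonneg J
  have hηm0 : 0 ≤ ηm := (W.hη _ (hf 0)).1.trans (W.hη _ (hf 0)).2
  have hηmy : ηm ≤ y := (le_mul_of_one_le_left hηm0 W.C1).trans hηy
  have hy0 : 0 ≤ y := hηm0.trans hηmy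
  have hyJ : 0 ≤ y * J := mul_nonneg hy0 hJ0
  obtain ⟨Y, hY⟩ : ∃ Y : ℕ, Y = ⌈4 * (y * J)⌉₊ + 2 := ⟨_, rfl⟩
  have hY1 : 4 * (y * J) + 2 ≤ Y := by
    rw [hY]
    push_cast
    linarith [Nat.le_ceil (4 * (y * (J : ℝ)))]
  have hY2 : (Y : ℝ) ≤ 4 * (y * J) + 3 := by
    rw [hY]
    push_cast
    linarith [(Nat.ceil_lt_add_one (show 0 ≤ 4 * (y * (J : ℝ)) by linarith)).le]
  have hmJ : ηm * J ≤ y * J := mul_le_mul_of_nonneg_right hηmy hJ0
  have hCJ : C₀ * (ηm * J) ≤ y * J := by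
    rw [← mul_assoc]
    exact mul_le_mul_of_nonneg_right hηy hJ0
  obtain ⟨κc, hκc⟩ : ∃ κc : ℕ → ℕ → ℝ, κc = fun t l =>
    ((ptr F J ω).1 (c l) : ℝ) / 2 ^ J - eval (bho J J (ptr F J ω)) (G (f t) (ptr F J ω) l) :=
      ⟨_, rfl⟩
  have hGno : ∀ t l, ∀ b : Option (Fin m) → ℝ,
      eval b (Gno (c l) J J (fun y => G (f t) y l) (ptr F J ω)) =
        eval b (G (f t) (ptr F J ω) l) + κc t l := by
    intro t l b
    unfold Gno
    rw [map_add, eval_C, hκc]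
  have gg : ∀ t ≤ n, ∀ t' ≤ n, ∀ l ≤ k + 1, lv (f t) l ≤ lv (f t') l + y →
      (g₀ (f t) l : ℝ) ≤ g₀ (f t') l + 2 * (y * J) := by
    intro t ht t' ht' l hl h
    obtain ⟨-, -, -, h1⟩ := W.g_num (hf t) hl
    obtain ⟨-, -, h2, -⟩ := W.g_num (hf t') hl
    have h3 : lv (f t) l * J ≤ (lv (f t') l + y) * J := mul_le_mul_of_nonneg_right h hJ0
    linarith
  have hstep : ∀ t < n, ∀ l ≤ k + 1, ∀ b, NBx c (G (f (t + 1)) (ptr F J ω)) (g₀ (f (t + 1)))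
      ⌊ow (f (t + 1)) * J⌋₊ (F.t ω) l b → |eval b (G (f t) (ptr F J ω) l) + κc t l -
        eval b (G (f (t + 1)) (ptr F J ω) l)| ≤ 2 ^ Y / 2 ^ g₀ (f (t + 1)) l := by
    intro t ht l hl b hb
    obtain ⟨j, hj, hzj⟩ := hz t ht
    have h1 := W.bal (f t) (hf t) (f (t + 1)) (hf (t + 1)) j hj
      (Nat.floor_le_floor (mul_le_mul_of_nonneg_right (how t ht) hJ0)) hzj ω hω l hl b hb
    rw [hGno] at h1
    refine h1.trans ?_
    rw [div_le_div_iff₀ (by positivity) (by positivity), ← pow_add, ← pow_add]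
    refine pow_le_pow_right₀ (by norm_num) ?_
    obtain ⟨a1, a2, a3, a4⟩ := W.g_num (hf t) hl
    obtain ⟨b1, b2, b3, b4⟩ := W.g_num (hf (t + 1)) hl
    have h3 : lv (f (t + 1)) l * J ≤ (lv (f t) l + y) * J :=
      mul_le_mul_of_nonneg_right (hs1 t ht l hl) hJ0
    have h4 : (⌊C₀ * (ηm * J)⌋₊ : ℝ) ≤ C₀ * (ηm * J) := Nat.floor_le
      (mul_nonneg (by linarith [W.C1]) (mul_nonneg hηm0 hJ0))
    have h5 : ((⌊C₀ * (ηm * J)⌋₊ + g₀ (f (t + 1)) l : ℕ) : ℝ) ≤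
        ((Y + ⌊bb (f t) l * J⌋₊ : ℕ) : ℝ) := by
      push_cast
      linarith
    have h6 : ⌊C₀ * (ηm * J)⌋₊ + g₀ (f (t + 1)) l ≤ Y + ⌊bb (f t) l * J⌋₊ := by exact_mod_cast h5
    have h7 : ((⌊C₀ * (ηm * J)⌋₊ : ℕ) : ℝ) ≤ (Y : ℕ) := by linarith
    have h8 : ⌊C₀ * (ηm * J)⌋₊ ≤ Y := by exact_mod_cast h7
    rcases min_cases (⌊bb (f t) l * J⌋₊ + (⌊ow (f (t + 1)) * J⌋₊ - ⌊ow (f t) * J⌋₊))
      (g₀ (f (t + 1)) l) with h9 | h9 <;> rw [h9.1] <;> omega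
  have hκ : ∀ t < n, ∀ l ≤ k, |κc t l| ≤ 2 ^ Y / 2 ^ g₀ (f (t + 1)) l := by
    intro t ht l hl
    have h1 := (W.ev (f t) (hf t)).near ω hω l (by omega) 0
    rw [hGno, add_sub_cancel_left] at h1
    refine h1.trans ?_
    rw [div_le_div_iff₀ (by positivity) (by positivity)]
    have h2 := gg (t + 1) (by omega) t (by omega) l (by omega) (hs1 t ht l (by omega))
    have h3 : ((g₀ (f (t + 1)) l + 1 : ℕ) : ℝ) ≤ ((Y + g₀ (f t) l : ℕ) : ℝ) := by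
      push_cast
      linarith
    have h4 : g₀ (f (t + 1)) l + 1 ≤ Y + g₀ (f t) l := by exact_mod_cast h3
    calc (2 : ℝ) * 2 ^ g₀ (f (t + 1)) l = 2 ^ (g₀ (f (t + 1)) l + 1) := by rw [pow_succ]; ring
      _ ≤ 2 ^ (Y + g₀ (f t) l) := pow_le_pow_right₀ (by norm_num) h4
      _ = _ := by rw [pow_add]
  have hmon : ∀ t ≤ n, ow (f t) ≤ ow (f n) := by
    have key : ∀ j, ∀ t, t + j = n → ow (f t) ≤ ow (f n) := by
      intro j
      induction j with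
      | zero => exact fun t ht => by rw [show t = n by omega]
      | succ j ih => exact fun t ht => (how t (by omega)).trans (ih (t + 1) (by omega))
    exact fun t ht => key (n - t) t (by omega)
  have h1 := hC (c := c) (n := n) (Y := Y) (ψ := fun t => G (f t) (ptr F J ω)) (κ := κc)
    (g := fun t => g₀ (f t)) (o := fun t => ⌊ow (f t) * J⌋₊) (T := F.t ω) hc (fun t l => ?_)
    (fun t l => ?_) hstep hκ (fun t ht => Nat.floor_le_floor
      (mul_le_mul_of_nonneg_right (hmon t ht) hJ0)) (fun t ht t' ht' htt l hl => ?_)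
    (fun t ht => ?_) ?_ x hx
  · refine h1.trans (div_le_div_of_nonneg_right ?_ (by positivity))
    rw [← Real.rpow_natCast]
    refine Real.rpow_le_rpow_of_exponent_le (by norm_num) ?_
    push_cast
    have hC0 : (0 : ℝ) ≤ C := Nat.cast_nonneg C
    nlinarith
  · exact (W.ev (f t) (hf t)).ball.degG _ _
  · exact (W.ev (f t) (hf t)).ball.depG _ _
  · have h2 := gg t ht t' ht' l (by omega) (hs2 t ht t' ht' htt l hl)
    have h3 : (g₀ (f t) l : ℝ) ≤ ((g₀ (f t') l + Y : ℕ) : ℝ) := by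
      push_cast
      linarith
    exact_mod_cast h3
  · obtain ⟨-, -, -, b1⟩ := W.g_num (hf n) (show k + 1 ≤ k + 1 from le_rfl)
    obtain ⟨-, -, -, b2⟩ := W.g_num (hf t) (show k ≤ k + 1 by omega)
    obtain ⟨-, -, b3, -⟩ := W.g_num (hf n) (show k ≤ k + 1 by omega)
    obtain ⟨-, -, b4, -⟩ := W.g_num (hf t) (show k + 1 ≤ k + 1 from le_rfl)
    have h2 : (lv (f n) (k + 1) + lv (f t) k) * J ≤ (lv (f n) k + lv (f t) (k + 1) + y) * J :=
      mul_le_mul_of_nonneg_right (hs3 t ht) hJ0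
    have h3 : ((g₀ (f n) (k + 1) + g₀ (f t) k : ℕ) : ℝ) ≤
        ((g₀ (f n) k + g₀ (f t) (k + 1) + Y : ℕ) : ℝ) := by
      push_cast
      linarith
    exact_mod_cast h3
  · have h2 : (n : ℝ) ≤ (Y : ℕ) := by linarith
    have h3 : n ≤ Y := by exact_mod_cast h2
    exact h3.trans Nat.lt_two_pow_self.le

/-- **The label is near the chart of the last window**, on the event. -/
theorem slab_near (D k : ℕ) : ∃ C : ℕ, 1 ≤ C ∧ ∀ {m J : ℕ} {F : Fam m J} {c : ℕ → Fin m}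
    {Dr N M : ℕ} {C₀ a Eb ηm : ℝ} {ow η σ : ℕ → ℝ} {lv bb : ℕ → ℕ → ℝ} {κ : ℝ} {z : ℕ → ℕ → ℕ}
    {A : F.Ω → Prop} {g₀ : ℕ → ℕ → ℕ} {G : ℕ → PtT F → ℕ → MvPolynomial (Option (Fin m)) ℝ}
    {H : ℕ → LnT F → ℕ → MvPolynomial (Option (Fin m)) ℝ} {f : ℕ → ℕ} {n : ℕ} {y : ℝ},
    WinB F c (k + 1) D Dr N M C₀ a Eb ηm ow η σ lv bb κ z A g₀ G H →
    Set.InjOn c (Set.Iio (k + 2)) → (∀ t ≤ n, f t ≤ N) → (∀ t < n, ow (f t) ≤ ow (f (t + 1))) →
    (∀ t < n, ∃ j ≤ M, z (f t) j = ⌊ow (f (t + 1)) * J⌋₊ - ⌊ow (f t) * J⌋₊) →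
    C₀ * ηm ≤ y → (n : ℝ) ≤ y * J →
    (∀ t < n, ∀ l ≤ k + 1, lv (f (t + 1)) l ≤ lv (f t) l + y) →
    (∀ t ≤ n, ∀ t' ≤ n, t ≤ t' → ∀ l ≤ k, lv (f t) l ≤ lv (f t') l + y) →
    (∀ t ≤ n, lv (f n) (k + 1) + lv (f t) k ≤ lv (f n) k + lv (f t) (k + 1) + y) →
    ∀ ω, A ω → ∀ x, NBx c (G (f n) (ptr F J ω)) (g₀ (f n)) ⌊ow (f n) * J⌋₊ (F.t ω) (k + 1) x →
      |eval x (slG c G k (f 0) (f n) (ptr F J ω)) - eval x (G (f n) (ptr F J ω) (k + 1))| ≤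
        2 ^ (C * (y * J + 1)) / 2 ^ g₀ (f n) (k + 1) := by
  obtain ⟨C, hC1, hC⟩ := slab_near0 D k
  refine ⟨C, hC1, ?_⟩
  intro m J F c Dr N M C₀ a Eb ηm ow η σ lv bb κ z A g₀ G H f n y W hc hf how hz hηy hny hs1 hs2
    hs3 ω hω x hx
  obtain ⟨f', hf'⟩ : ∃ f' : ℕ → ℕ, f' = fun t => f (min t n) := ⟨_, rfl⟩
  have e : ∀ t ≤ n, f' t = f t := fun t ht => by
    rw [hf']
    show f (min t n) = f t
    rw [min_eq_left ht]
  have h1 := hC (f := f') (n := n) (y := y) W hc (fun t => by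
    rw [hf']
    exact hf _ (min_le_right _ _)) (fun t ht => by
    rw [e t ht.le, e (t + 1) ht]
    exact how t ht) (fun t ht => by
    rw [e t ht.le, e (t + 1) ht]
    exact hz t ht) hηy hny (fun t ht l hl => by
    rw [e t ht.le, e (t + 1) ht]
    exact hs1 t ht l hl) (fun t ht t' ht' htt l hl => by
    rw [e t ht, e t' ht']
    exact hs2 t ht t' ht' htt l hl) (fun t ht => by
    rw [e t ht, e n le_rfl]
    exact hs3 t ht) ω hω x
  rw [e n le_rfl, e 0 (Nat.zero_le _)] at h1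
  exact h1 hx

/-- **The label with the slope of an earlier window**: all the conditions for a label of the last
place. -/
theorem slab_win (m D k : ℕ) (hD : 1 ≤ D) : ∃ C : ℕ, 1 ≤ C ∧ ∀ {J : ℕ} {F : Fam m J}
    {c : ℕ → Fin m} {Dr N M : ℕ} {C₀ a Eb ηm : ℝ} {ow η σ : ℕ → ℝ} {lv bb : ℕ → ℕ → ℝ} {κ : ℝ}
    {z : ℕ → ℕ → ℕ} {A : F.Ω → Prop} {g₀ : ℕ → ℕ → ℕ}
    {G : ℕ → PtT F → ℕ → MvPolynomial (Option (Fin m)) ℝ}
    {H : ℕ → LnT F → ℕ → MvPolynomial (Option (Fin m)) ℝ} {f : ℕ → ℕ} {n : ℕ} {y φ u : ℝ},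
    WinB F c (k + 1) D Dr N M C₀ a Eb ηm ow η σ lv bb κ z A g₀ G H →
    Set.InjOn c (Set.Iio (k + 2)) → (∀ t ≤ n, f t ≤ N) → (∀ t < n, ow (f t) ≤ ow (f (t + 1))) →
    (∀ t < n, ∃ j ≤ M, z (f t) j = ⌊ow (f (t + 1)) * J⌋₊ - ⌊ow (f t) * J⌋₊) →
    C₀ * ηm ≤ y → (n : ℝ) ≤ y * J →
    (∀ t < n, ∀ l ≤ k + 1, lv (f (t + 1)) l ≤ lv (f t) l + y) →
    (∀ t ≤ n, ∀ t' ≤ n, t ≤ t' → ∀ l ≤ k, lv (f t) l ≤ lv (f t') l + y) →
    (∀ t ≤ n, lv (f n) (k + 1) + lv (f t) k ≤ lv (f n) k + lv (f t) (k + 1) + y) →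
    -- the numbers
    C * (y * J + 1) ≤ φ * J → φ ≤ u → φ ≤ lv (f n) (k + 1) → ow (f n) ≤ 1 →
    (∀ l ≤ k + 1, Eb + lv (f n) l + 7 * u ≤ 1) →
    (∃ jq ≤ M, ∃ jT ≤ M, (z (f n) jq : ℝ) ≤ u * J ∧ z (f n) jq + 1 ≤ z (f n) jT) →
    (∀ ω, A ω → slG c G k (f 0) (f n) (ptr F J ω) =
      slH c H k (f 0) (f n) ⌊ow (f 0) * J⌋₊ ⌊ow (f n) * J⌋₊ (slam F ⌊ow (f n) * J⌋₊ ω)) ∧
    (∀ x, (slG c G k (f 0) (f n) x).totalDegree ≤ D * D) ∧
    (∀ s, (slH c H k (f 0) (f n) ⌊ow (f 0) * J⌋₊ ⌊ow (f n) * J⌋₊ s).totalDegree ≤ D * D) ∧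
    (∀ x, DepC c (k + 1) (slG c G k (f 0) (f n) x)) ∧
    (∀ s, DepC c (k + 1) (slH c H k (f 0) (f n) ⌊ow (f 0) * J⌋₊ ⌊ow (f n) * J⌋₊ s)) ∧
    (∀ ω, A ω → |F.x ω (c (k + 1)) - eval (bt F ω) (slG c G k (f 0) (f n) (ptr F J ω))| ≤
      1 / 2 ^ ⌊(lv (f n) (k + 1) - φ) * J⌋₊) ∧
    (∀ ω, A ω → ∀ x, NBx c (G (f n) (ptr F J ω)) (g₀ (f n)) ⌊ow (f n) * J⌋₊ (F.t ω) (k + 1) x →
      |eval x (slG c G k (f 0) (f n) (ptr F J ω)) + 0 - eval x (G (f n) (ptr F J ω) (k + 1))| ≤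
        2 ^ (φ * J) / 2 ^ g₀ (f n) (k + 1)) ∧
    (∀ ω ν, A ω → A ν → ptr F J ω = ptr F J ν → |(F.x ω (c (k + 1)) -
      eval (bt F ω) (slG c G k (f 0) (f n) (ptr F J ω))) - (F.x ν (c (k + 1)) -
        eval (bt F ν) (slG c G k (f 0) (f n) (ptr F J ν)))| ≤
        1 / 2 ^ ⌊(lv (f n) (k + 1) + 3 * u) * J⌋₊) := by
  obtain ⟨C₁, hC₁, hnear⟩ := slab_near D k
  obtain ⟨Cc, hCc, hcell⟩ := winb_cell m D (k + 1)
  obtain ⟨Ci, hCi, hinc⟩ := Pool.CHT.nbx_inc (D * D) (k + 2)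
  obtain ⟨NC, hNC⟩ := pow_unbounded_of_one_lt Ci (one_lt_two (α := ℝ))
  refine ⟨C₁ + NC + 2 * Cc + 8, by omega, ?_⟩
  intro J F c Dr N M C₀ a Eb ηm ow η σ lv bb κ z A g₀ G H f n y φ u W hc hf how hz hηy hny hs1 hs2
    hs3 hCφ hφu hφl hwn hroom hzz
  have hJ0 : (0 : ℝ) ≤ J := Nat.cast_nonneg J
  have hfn := hf n le_rfl
  have hf0 := hf 0 (Nat.zero_le _)
  have hηm0 : 0 ≤ ηm := (W.hη _ hfn).1.trans (W.hη _ hfn).2
  have hηmy : ηm ≤ y := (le_mul_of_one_le_left hηm0 W.C1).trans hηy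
  have hy0 : 0 ≤ y := hηm0.trans hηmy
  have hyJ : 0 ≤ y * J := mul_nonneg hy0 hJ0
  have hmJ : ηm * J ≤ y * J := mul_le_mul_of_nonneg_right hηmy hJ0
  have hDD : D ≤ D * D := Nat.le_mul_of_pos_left _ (by omega)
  have hnr := hnear W hc hf how hz hηy hny hs1 hs2 hs3
  have hmon : ow (f 0) ≤ ow (f n) := by
    have key : ∀ j, ∀ t, t + j = n → ow (f t) ≤ ow (f n) := by
      intro j
      induction j with
      | zero => exact fun t ht => by rw [show t = n by omega]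
      | succ j ih => exact fun t ht => (how t (by omega)).trans (ih (t + 1) (by omega))
    exact key n 0 (by omega)
  have hcast : ((C₁ + NC + 2 * Cc + 8 : ℕ) : ℝ) = C₁ + NC + 2 * Cc + 8 := by push_cast; ring
  rw [hcast] at hCφ
  obtain ⟨e, he⟩ : ∃ e : ℝ, e = y * J + 1 := ⟨_, rfl⟩
  have he1 : 1 ≤ e := by rw [he]; linarith
  rw [← he] at hCφ
  have hp1 : 0 ≤ (C₁ : ℝ) * e := by positivity
  have hp2 : 0 ≤ (NC : ℝ) * e := by positivity
  have hp3 : 0 ≤ (Cc : ℝ) * e := by positivity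
  have hCφ' : C₁ * e + NC * e + 2 * (Cc * e) + 8 * e ≤ φ * J := by linarith
  have hφuJ : φ * J ≤ u * J := mul_le_mul_of_nonneg_right hφu hJ0
  have hNCe : (NC : ℝ) ≤ NC * e := le_mul_of_one_le_right (Nat.cast_nonneg _) he1
  -- the polynomials
  obtain ⟨-, -, g1, g2⟩ := W.g_num hfn (le_refl (k + 1))
  have hbtN : ∀ ω ν, A ω → A ν → ptr F J ω = ptr F J ν →
      NBx c (G (f n) (ptr F J ω)) (g₀ (f n)) ⌊ow (f n) * J⌋₊ (F.t ω) (k + 1) (bt F ν) := by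
    intro ω ν hω hν hpt
    obtain ⟨-, ht, -⟩ := bt_near hpt
    refine ⟨?_, fun l hl => ?_⟩
    · show |bt F ν none - bt F ω none| ≤ _
      rw [ht, sub_self, abs_zero]
      positivity
    · rw [hpt]
      exact (W.ev (f n) hfn).ball.pos ν hν l (by omega)
  refine ⟨fun ω hω => ?_, fun x => ?_, fun s => ?_, fun x => ?_, fun s => ?_, fun ω hω => ?_,
    fun ω hω x hx => ?_, fun ω ν hω hν hpt => ?_⟩
  · unfold slG slH
    rw [upw_slam F (Nat.floor_le_floor (mul_le_mul_of_nonneg_right hmon hJ0)) (floor_le hwn J) ω,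
      (W.ev (f 0) hf0).cls ω hω (k + 1) (by omega), (W.ev (f n) hfn).cls ω hω (k + 1) (by omega),
      (W.ev (f n) hfn).cls ω hω k (by omega)]
  · exact deg_slb _ hD ((W.ev (f 0) hf0).ball.degG _ _) ((W.ev (f n) hfn).ball.degG _ _)
      ((W.ev (f n) hfn).ball.degG _ _)
  · exact deg_slb _ hD ((W.ev (f 0) hf0).ball.degH _ _) ((W.ev (f n) hfn).ball.degH _ _)
      ((W.ev (f n) hfn).ball.degH _ _)
  · exact dep_slb ((W.ev (f 0) hf0).ball.depG _ _) ((W.ev (f n) hfn).ball.depG _ _)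
      ((W.ev (f n) hfn).ball.depG _ _)
  · exact dep_slb ((W.ev (f 0) hf0).ball.depH _ _) ((W.ev (f n) hfn).ball.depH _ _)
      ((W.ev (f n) hfn).ball.depH _ _)
  · have h1 := hnr ω hω (bt F ω) (hbtN ω ω hω hω rfl)
    have h2 := (W.ev (f n) hfn).ball.pos ω hω (k + 1) (by omega)
    rw [← he] at h1
    have h3 : |F.x ω (c (k + 1)) - eval (bt F ω) (slG c G k (f 0) (f n) (ptr F J ω))| ≤
        (2 : ℝ) ^ (C₁ * e + 1) / 2 ^ g₀ (f n) (k + 1) := by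
      have h4 : (2 : ℝ) ^ (C₁ * e + 1) = 2 ^ (C₁ * e) + 2 ^ (C₁ * e) := by
        rw [Real.rpow_add (by norm_num), Real.rpow_one]
        ring
      have h5 : (1 : ℝ) ≤ 2 ^ (C₁ * e) := Real.one_le_rpow (by norm_num) hp1
      rw [h4, add_div]
      have h6 : (1 : ℝ) / 2 ^ g₀ (f n) (k + 1) ≤ 2 ^ (C₁ * e) / 2 ^ g₀ (f n) (k + 1) :=
        div_le_div_of_nonneg_right h5 (by positivity)
      rw [abs_le] at h1 h2 ⊢
      constructor <;> linarith only [h1.1, h1.2, h2.1, h2.2, h6]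
    refine h3.trans ?_
    rw [div_le_div_iff₀ (by positivity) (by positivity), one_mul, ← Real.rpow_natCast,
      ← Real.rpow_natCast, ← Real.rpow_add (by norm_num)]
    refine Real.rpow_le_rpow_of_exponent_le (by norm_num) ?_
    have h7 := Nat.floor_le (show 0 ≤ (lv (f n) (k + 1) - φ) * J from
      mul_nonneg (by linarith) hJ0)
    have h8 : y * J = e - 1 := by rw [he]; ring
    linarith
  · rw [add_zero]
    refine (hnr ω hω x hx).trans (div_le_div_of_nonneg_right ?_ (by positivity))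
    rw [← he]
    refine Real.rpow_le_rpow_of_exponent_le (by norm_num) ?_
    linarith
  · obtain ⟨jq, hjq, jT, hjT, hz1, hz2⟩ := hzz
    obtain ⟨Y, hY⟩ : ∃ Y : ℕ, Y = ⌈y * (J : ℝ)⌉₊ + 1 := ⟨_, rfl⟩
    have hY1 : y * J + 1 ≤ Y := by
      rw [hY]
      push_cast
      linarith [Nat.le_ceil (y * (J : ℝ))]
    have hY2 : (Y : ℝ) ≤ 2 * e := by
      rw [hY, he]
      push_cast
      linarith [(Nat.ceil_lt_add_one hyJ).le]
    obtain ⟨q, hq⟩ : ∃ q : ℕ, q = ⌈3 * u * J + (C₁ + NC + 4) * e⌉₊ := ⟨_, rfl⟩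
    have huJ : 0 ≤ u * J := by linarith
    have hq1 : 3 * u * J + (C₁ + NC + 4) * e ≤ q := by
      rw [hq]
      exact Nat.le_ceil _
    have hq2 : (q : ℝ) ≤ 3 * u * J + (C₁ + NC + 4) * e + 1 := by
      rw [hq]
      exact (Nat.ceil_lt_add_one (by
        have : 0 ≤ (C₁ + NC + 4) * e := by positivity
        nlinarith)).le
    have hhg := hcell W (k₀ := f n) (jq := jq) (jT := jT) (q := q) (Y := Y) hc hfn hjq hjT hz2 (by
      have h1 : C₀ * (ηm * J) ≤ y * J := by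
        rw [← mul_assoc]
        exact mul_le_mul_of_nonneg_right hηy hJ0
      linarith) (by omega) (fun l hl => by
      have h1 := mul_le_mul_of_nonneg_right (hroom l hl) hJ0
      have h2 : (Cc : ℝ) * Y ≤ Cc * (2 * e) := mul_le_mul_of_nonneg_left hY2 (Nat.cast_nonneg _)
      have h3 : (C₁ + NC + 4 : ℝ) * e = C₁ * e + NC * e + 4 * e := by ring
      have h4 : (Eb + lv (f n) l + 7 * u) * (J : ℝ) = (Eb + lv (f n) l) * J + 7 * (u * J) := by ring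
      have h5 : 3 * u * (J : ℝ) = 3 * (u * J) := by ring
      linarith) ω ν hω hν hpt
    have hin := hinc (c := c) (i := k + 1) (G := G (f n) (ptr F J ω))
      (Q := slG c G k (f 0) (f n) (ptr F J ω) - G (f n) (ptr F J ω) (k + 1)) (g := g₀ (f n))
      (a := ⌊ow (f n) * J⌋₊) (t := F.t ω) (M := 2 ^ (C₁ * e) / 2 ^ g₀ (f n) (k + 1))
      (lam := 2 ^ 2 / 2 ^ q) (b := bt F ω) (b' := bt F ν) (by omega)
      (hc.mono fun x hx => by rw [Set.mem_Iio] at hx ⊢; omega)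
      (fun l => ((W.ev (f n) hfn).ball.degG _ _).trans hDD)
      ((W.ev (f n) hfn).ball.depG _) (fun b b' h0 h1 => by
        rw [map_sub, map_sub, (W.ev (f n) hfn).ball.depG _ _ b b' h0 h1]
        congr 1
        exact dep_slb ((W.ev (f 0) hf0).ball.depG _ _) ((W.ev (f n) hfn).ball.depG _ _)
          ((W.ev (f n) hfn).ball.depG _ _) b b' h0 h1)
      ((totalDegree_sub _ _).trans (max_le (deg_slb _ hD ((W.ev (f 0) hf0).ball.degG _ _)
        ((W.ev (f n) hfn).ball.degG _ _) ((W.ev (f n) hfn).ball.degG _ _))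
        (((W.ev (f n) hfn).ball.degG _ _).trans hDD))) (by positivity) (by positivity)
      (fun b hb => by
        rw [map_sub, he]
        exact hnr ω hω b hb) (hbtN ω ω hω hω rfl) (hbtN ω ν hω hν hpt) (bt_near hpt).2.1.symm
      (fun l hl => by
        have h1 := hhg l (by omega)
        unfold hgt at h1
        rw [← hpt, abs_sub_comm] at h1
        refine h1.trans (le_of_eq ?_)
        rw [pow_add]
        field_simp)
    have h1 := hhg (k + 1) le_rfl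
    unfold hgt at h1
    rw [← hpt] at h1 ⊢
    rw [map_sub, map_sub] at hin
    have h2 : |(F.x ω (c (k + 1)) - eval (bt F ω) (slG c G k (f 0) (f n) (ptr F J ω))) -
        (F.x ν (c (k + 1)) - eval (bt F ν) (slG c G k (f 0) (f n) (ptr F J ω)))| ≤
        2 ^ 2 / 2 ^ (g₀ (f n) (k + 1) + q) +
          Ci * (2 ^ (C₁ * e) / 2 ^ g₀ (f n) (k + 1)) * (2 ^ 2 / 2 ^ q) := by
      rw [abs_le] at h1 hin ⊢
      constructor <;> linarith only [h1.1, h1.2, hin.1, hin.2]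
    refine h2.trans ?_
    have h3 : (2 : ℝ) ^ 2 / 2 ^ (g₀ (f n) (k + 1) + q) +
          Ci * (2 ^ (C₁ * e) / 2 ^ g₀ (f n) (k + 1)) * (2 ^ 2 / 2 ^ q) =
        (2 ^ 2 * (1 + Ci * 2 ^ (C₁ * e))) / 2 ^ (g₀ (f n) (k + 1) + q) := by
      rw [pow_add]
      field_simp
    rw [h3]
    have h5 : (1 : ℝ) ≤ 2 ^ (C₁ * e) := Real.one_le_rpow (by norm_num) hp1
    have h4 : (2 : ℝ) ^ 2 * (1 + Ci * 2 ^ (C₁ * e)) ≤ 2 ^ ((3 : ℝ) + NC + C₁ * e) := by
      rw [Real.rpow_add (by norm_num), Real.rpow_add (by norm_num), Real.rpow_natCast]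
      have h6 : (1 : ℝ) ≤ 2 ^ NC := one_le_pow₀ (by norm_num)
      have h7 : Ci * (2 : ℝ) ^ (C₁ * e) ≤ 2 ^ NC * 2 ^ (C₁ * e) :=
        mul_le_mul_of_nonneg_right hNC.le (by positivity)
      have h8 : (1 : ℝ) ≤ 2 ^ NC * 2 ^ (C₁ * e) := one_le_mul_of_one_le_of_one_le h6 h5
      have h9 : (2 : ℝ) ^ (3 : ℝ) = 8 := by norm_num
      rw [h9]
      linarith
    refine (div_le_div_of_nonneg_right h4 (by positivity)).trans ?_
    rw [div_le_div_iff₀ (by positivity) (by positivity), one_mul, ← Real.rpow_natCast,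
      ← Real.rpow_natCast, ← Real.rpow_add (by norm_num)]
    refine Real.rpow_le_rpow_of_exponent_le (by norm_num) ?_
    have hφ0 : 0 ≤ lv (f n) (k + 1) := (by
      by_contra hcon
      rw [not_le] at hcon
      have h10 : lv (f n) (k + 1) * (J : ℝ) ≤ 0 := mul_nonpos_of_nonpos_of_nonneg hcon.le hJ0
      have h11 : φ * (J : ℝ) ≤ lv (f n) (k + 1) * J := mul_le_mul_of_nonneg_right hφl hJ0
      linarith)
    have h7 := Nat.floor_le (show 0 ≤ (lv (f n) (k + 1) + 3 * u) * (J : ℝ) by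
      have h10 := mul_nonneg hφ0 hJ0
      have h11 : (lv (f n) (k + 1) + 3 * u) * (J : ℝ) = lv (f n) (k + 1) * J + 3 * (u * J) := by
        ring
      linarith)
    have h8 : y * J = e - 1 := by rw [he]; ring
    have h9 : (C₁ + NC + 4 : ℝ) * e = C₁ * e + NC * e + 4 * e := by ring
    push_cast
    linarith

end Pool.NVT16
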