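import Pool.Agent.H16.NVT.Jtt

/-!
# The own jets of the place `c k` at a tie

`vh_jet`: the jets of order at least two of the slope-one places at all windows, with more digits.
`uj_high`: the own jets of the place `c k` of order `j`, if `j` is larger than its slope, are few bits
given the positions and velocities of the slope-one places. `uj_zero`: its position. `uj_prec`: all
own jets, if a closed label of higher precision exists at the window (static and steep places).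
-/

set_option autoImplicit false

namespace Pool.NVT16

open Finset Real MvPolynomial
open Pool.Agent.H49.Ent Pool.Agent.H32.Dense Pool.STK Pool.KA Pool.KSAT Pool.K2S Pool.PB Pool.GEN
open Pool.S6C Pool.RCD Pool.LA91 Pool.AVG96 Pool.V0F Pool.V0T
open Pool.OWN68 (F1 F0 few0_room few0_iff few_iff F1.mono)
open Pool.V0R (LadR)

variable {m : ℕ} {S : PCl m} {c : ℕ → Fin m} {r : ℕ} {sn : ℕ → ℝ → ℝ} {G : Set ℝ} {b o φ : ℝ}

variable {α γ : ∀ J : ℕ, Fam m J → Type}
  {f : ∀ (J : ℕ) (F : Fam m J), F.Ω → α J F} {y : ∀ (J : ℕ) (F : Fam m J), F.Ω → γ J F}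

/-- **The digits of the jets of the chain** at the window `v`: those of `w` for the orders `0`, `1`,
more for the higher orders. -/
noncomputable def nvh (n : ℕ → ℝ) (w μ v : ℝ) (l j : ℕ) : ℝ :=
  if j ≤ 1 then n l - (j : ℝ) * w else n l - w - ((j : ℝ) - 1) * v - μ * (w - v)

theorem nvh_lo {n : ℕ → ℝ} {w μ v : ℝ} {l j : ℕ} (h : j ≤ 1) : nvh n w μ v l j = n l - (j : ℝ) * w :=
  if_pos h

theorem nvh_hi {n : ℕ → ℝ} {w μ v : ℝ} {l j : ℕ} (h : 2 ≤ j) :
    nvh n w μ v l j = n l - w - ((j : ℝ) - 1) * v - μ * (w - v) := if_neg (by omega)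

theorem nvh_ge {n : ℕ → ℝ} {w μ v : ℝ} (hμ1 : μ ≤ 1) (hv : v ≤ w) (l j : ℕ) :
    n l - (j : ℝ) * w ≤ nvh n w μ v l j := by
  rcases Nat.lt_or_ge 1 j with h | h
  · rw [nvh_hi h]
    have h1 : (2 : ℝ) ≤ j := by exact_mod_cast h
    have h2 : μ * (w - v) ≤ 1 * (w - v) := mul_le_mul_of_nonneg_right hμ1 (by linarith)
    have h3 : 1 * (w - v) ≤ ((j : ℝ) - 1) * (w - v) :=
      mul_le_mul_of_nonneg_right (by linarith) (by linarith)
    nlinarith
  · rw [nvh_lo h]

/-- **One step** to a later window, orders at least two. -/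
theorem vh_one (L : Lad S c r sn G b o φ)
    (hf : ∀ (J : ℕ) (F : Fam m J), ∃ χ : α J F → PtT F, ∀ ω, ptr F J ω = χ (f J F ω))
    (hy : Kn ((range 0).image c) 1 1 y) {w : ℝ} {n : ℕ → ℝ} (hw : w ∈ G) (hwo : w ≤ o)
    (hn : Nst r sn w φ n) {μ : ℝ} (hμ0 : 0 < μ) (hμ1 : μ ≤ 1) {v v' : ℝ} (hv : v ∈ G)
    (hv' : v' ∈ G) (hbv : b ≤ v) (hvv : v ≤ v')
    (hv3 : v' ≤ v + 3 * φ) (hvw : v' ≤ w) {p : ℕ → ℝ} (hp : ∀ i < r, sn i v - φ ≤ p i)
    {Jm : ℕ} {i : ℕ} (hi : i < r) {j : ℕ} (hj2 : 2 ≤ j) (hj : j ≤ Jm) :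
    Few S f (vg v') y (qJets m c 0 r Jm (fun _ _ => v) (fun l _ => p l) (nvh n w μ v))
      (qJet m ((range i).image c) (c i) j v' (sn i v') (nvh n w μ v' i j)) := by
  obtain ⟨C₀, htm⟩ := L.tm
  obtain ⟨u₁, rd, hrd, hch⟩ := L.ch.ch v' hv'
  have hφ := L.φ0
  have hv1 : v' < 1 := hch.u0
  have hv0 : 0 ≤ v' := hch.w0
  have hmin : min (1 : ℝ) (1 - v') = 1 - v' := min_eq_right (by linarith)
  have hj2' : (2 : ℝ) ≤ j := by exact_mod_cast hj2
  -- the levels
  have d1 : ∀ i < r, sn i v' - φ - 5 * φ ≤ p i := fun i hi => by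
    have k1 := L.dif hi hv hv' hbv (by linarith) (by linarith) (by linarith)
    have k2 := hp i hi
    linarith
  have d2 : ∀ i < r, sn i w - sn i v' ≤ w - v' + 2 * φ := fun i hi =>
    L.dif hi hv' hw (by linarith) (by linarith) (by linarith) hwo
  have d3 : ∀ i < r, w - v' - 2 * φ ≤ sn i w - sn i v' := fun i hi => by
    have := L.dif hi hw hv' (by linarith) hwo (by linarith) (by linarith)
    linarith
  have e1 := d1 i hi
  have e2 := d2 i hi
  have e3 := d3 i hi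
  have e4 := hn.hi i hi
  have hmn : sn i v' - 6 * φ ≤ min (p i) (sn i v') := le_min (by linarith) (by linarith)
  obtain ⟨X, hX⟩ : ∃ X : ℝ, X = μ * (w - v') := ⟨_, rfl⟩
  have hX0 : 0 ≤ X := by rw [hX]; exact mul_nonneg hμ0.le (by linarith)
  have hXv : μ * (w - v) ≤ X + 3 * φ := by
    have h1 : μ * (w - v) = X + μ * (v' - v) := by rw [hX]; ring
    have h2 : μ * (v' - v) ≤ 1 * (v' - v) := mul_le_mul_of_nonneg_right hμ1 (by linarith)
    linarith
  have hXv' : X ≤ μ * (w - v) := by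
    rw [hX]
    exact mul_le_mul_of_nonneg_left (by linarith) hμ0.le
  have hN2 : nvh n w μ v' i j = n i - w - ((j : ℝ) - 1) * v' - X := by rw [nvh_hi hj2, hX]
  have eX : nvh n w μ v' i j + (j : ℝ) * v' = n i - (w - v') - X := by rw [hN2]; ring
  rcases le_or_gt (n i - sn i w + 3 * φ) X with hA | hA
  · -- natural
    refine Few0.few L.pos (few0_iff.2 fun h hh => ⟨φ / 4, by linarith,
      few0_room htm hch.w0 hch.u0 hφ ?_ _ _ _ hh⟩)
    rw [eX]
    linarith
  obtain ⟨lv, hlv⟩ : ∃ lv : ℕ → ℝ, lv = fun l => n l - sn l w - X - 8 * φ := ⟨_, rfl⟩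
  have hlvl : ∀ l, lv l = n l - sn l w - X - 8 * φ := fun l => by rw [hlv]
  have hjv : ((j : ℝ) - 1) * v ≤ ((j : ℝ) - 1) * v' :=
    mul_le_mul_of_nonneg_left hvv (by linarith)
  have key := few_jetN (f := f) (y := y) htm (hch.take (Nat.zero_le i) hi.le) (k := c i)
    (j := j) (wv := fun _ _ => v) (pv := fun l _ => p l)
    (Nv := nvh n w μ v)
    (lv := lv) (w₁ := v) (w₂ := v') (p₁ := p i) (p₂ := sn i v')
    (N₁ := nvh n w μ v i j) (N₂ := nvh n w μ v' i j) (p₀ := 1) (lam := 1) (σ₀ := φ)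
    (fun _ _ _ _ _ => hvv) hvv le_rfl hv1 le_rfl one_pos hφ (by
      intro l _ hl
      have k1 := hn.ne i hi l hl
      rw [hlvl]
      linarith) (by
      intro l _ hl j'' hj''
      rw [hlvl]
      have k3 := d2 l (by omega)
      rcases Nat.lt_or_ge 1 j'' with h1 | h1
      · rw [nvh_hi h1]
        have h2 : (2 : ℝ) ≤ j'' := by exact_mod_cast h1
        have h3 : ((j'' : ℝ) - 1) * v ≤ ((j'' : ℝ) - 1) * v' :=
          mul_le_mul_of_nonneg_left hvv (by linarith)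
        have h4 : ((j'' : ℝ) - 1) * v' = j'' * v' - v' := by ring
        show sn l v' + (n l - sn l w - X - 8 * φ) + φ ≤ _
        have k4 := d3 l (by omega)
        linarith
      · rw [nvh_lo h1]
        show sn l v' + (n l - sn l w - X - 8 * φ) + φ ≤ _
        have k4 := d3 l (by omega)
        have h5 : (j'' : ℝ) * (w - v') ≤ 1 * (w - v') :=
          mul_le_mul_of_nonneg_right (by exact_mod_cast h1) (by linarith)
        have h6 : (j'' : ℝ) * (w - v') = j'' * w - j'' * v' := by ring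
        linarith) (by
      intro l _ hl j'' hj''
      have k1 := hn.hi l (by omega)
      have k2 := d1 l (by omega)
      have k3 := d2 l (by omega)
      rw [hlvl, hmin]
      show sn l v' + (n l - sn l w - X - 8 * φ) + φ ≤
        min (p l) (sn l v') + (1 - v')
      have k4 : sn l v' - 6 * φ ≤ min (p l) (sn l v') := le_min (by linarith) (by linarith)
      linarith) (by
      intro l _ hl j'' hj'' l' _ hl'
      have k1 := hn.ne l (by omega) l' hl'
      have k2 := d1 l (by omega)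
      rw [hlvl, hlvl]
      show sn l v' + (n l - sn l w - X - 8 * φ) + φ ≤
        min (p l) (sn l v') + (n l' - sn l' w - X - 8 * φ)
      have k4 : sn l v' - 6 * φ ≤ min (p l) (sn l v') := le_min (by linarith) (by linarith)
      linarith) (by
      rw [nvh_hi hj2, nvh_hi hj2]
      have h1 : μ * (v' - v) ≤ ((j : ℝ) - 1) * (v' - v) :=
        mul_le_mul_of_nonneg_right (by linarith) (by linarith)
      have h2 : μ * (v' - v) = μ * (w - v) - μ * (w - v') := by ring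
      have h3 : ((j : ℝ) - 1) * (v' - v) = ((j : ℝ) - 1) * v' - ((j : ℝ) - 1) * v := by ring
      linarith) (by
      rw [hmin, eX]
      linarith) (by
      intro l _ hl
      have k1 := hn.ne i hi l hl
      rw [hlvl, eX]
      linarith) hf hy
  refine Few.pre L.pos (fun u : ℕ → ℕ → ℤ => ((fun l j'' => if 0 ≤ l ∧ l < i ∧ j'' ≤ j then
    u l j'' else 0), u i j)) ?_ key
  intro K e J F A u hu
  exact ⟨qJets_take hi.le hj hu, hu.1 i (Nat.zero_le _) hi j hj⟩

/-- **One jet of the chain** at a later window, all orders. -/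
theorem vh_any (L : Lad S c r sn G b o φ)
    (hf : ∀ (J : ℕ) (F : Fam m J), ∃ χ : α J F → PtT F, ∀ ω, ptr F J ω = χ (f J F ω))
    (hy : Kn ((range 0).image c) 1 1 y) {w : ℝ} {n : ℕ → ℝ} (hw : w ∈ G) (hwo : w ≤ o)
    (hn : Nst r sn w φ n) {μ : ℝ} (hμ0 : 0 < μ) (hμ1 : μ ≤ 1) {v v' : ℝ} (hv : v ∈ G)
    (hv' : v' ∈ G) (hbv : b ≤ v) (hvv : v ≤ v')
    (hv3 : v' ≤ v + 3 * φ) (hvw : v' ≤ w) {p : ℕ → ℝ} (hp : ∀ i < r, sn i v - φ ≤ p i)
    {Jm : ℕ} {i : ℕ} (hi : i < r) {j : ℕ} (hj : j ≤ Jm) :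
    Few S f (vg v') y (qJets m c 0 r Jm (fun _ _ => v) (fun l _ => p l) (nvh n w μ v))
      (qJet m ((range i).image c) (c i) j v' (sn i v') (nvh n w μ v' i j)) := by
  rcases Nat.lt_or_ge 1 j with h | h
  · exact vh_one L hf hy hw hwo hn hμ0 hμ1 hv hv' hbv hvv hv3 hvw hp hi h hj
  · rw [nvh_lo h]
    exact vuj_any L hf hy hw hwo hn hv hv' hbv hvv hv3 hvw hp
      (fun i _ j' _ => nvh_ge hμ1 (hvv.trans hvw) i j') hi hj

/-- **All jets over the charts of the base window** from positions and velocities. -/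
theorem vh_base (L : Lad S c r sn G b o φ)
    (hf : ∀ (J : ℕ) (F : Fam m J), ∃ χ : α J F → PtT F, ∀ ω, ptr F J ω = χ (f J F ω))
    (hy : Kn ((range 0).image c) 1 1 y) {w : ℝ} {n p : ℕ → ℝ} (hw : w ∈ G) (hbw : b ≤ w)
    (hwo : w ≤ o) (hn : Nst r sn w φ n) {μ : ℝ}
    (hp : ∀ i < r, sn i b - φ ≤ p i)
    (hnat : ∀ i < r, n i - sn i w + 3 * φ ≤ μ * (w - b)) {Nf : ℕ → ℕ → ℝ}
    (hNf : ∀ i < r, ∀ j : ℕ, j ≤ 1 → n i - (j : ℝ) * w ≤ Nf i j) (Jm : ℕ) :
    Few S f (vg b) y (jetQ m c 0 r b p Nf) (qJets m c 0 r Jm (fun _ _ => b) (fun l _ => sn l b)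
      (nvh n w μ b)) := by
  have hφ := L.φ0
  obtain ⟨C₀, htm⟩ := L.tm
  obtain ⟨u₁, rd, hrd, hch⟩ := L.ch.ch b L.bG
  refine few_qjets L.pos fun i _ hi j _ => ?_
  rcases Nat.lt_or_ge 1 j with h | h
  · refine Few0.few L.pos (few0_iff.2 fun h' hh => ⟨φ / 4, by linarith,
      few0_room htm hch.w0 hch.u0 hφ ?_ _ _ _ hh⟩)
    rw [nvh_hi h]
    have d2 : sn i w - sn i b ≤ w - b + 2 * φ :=
      L.dif hi L.bG hw le_rfl L.bo (by linarith) hwo
    have := hnat i hi
    have e1 : ((j : ℝ) - 1) * b = j * b - b := by ring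
    linarith
  · rw [nvh_lo h]
    exact vuj_any L hf hy hw hwo hn L.bG L.bG le_rfl le_rfl (by linarith) hbw hp hNf hi h

/-- **The jets of all orders of the chain** at all windows between `b` and `w`. -/
theorem vh_all (L : Lad S c r sn G b o φ)
    (hf : ∀ (J : ℕ) (F : Fam m J), ∃ χ : α J F → PtT F, ∀ ω, ptr F J ω = χ (f J F ω))
    (hy : Kn ((range 0).image c) 1 1 y) {w : ℝ} {n p : ℕ → ℝ} (hw : w ∈ G) (hbw : b ≤ w)
    (hwo : w ≤ o) (hn : Nst r sn w φ n) {μ : ℝ} (hμ0 : 0 < μ) (hμ1 : μ ≤ 1)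
    (hp : ∀ i < r, sn i b - φ ≤ p i)
    (hnat : ∀ i < r, n i - sn i w + 3 * φ ≤ μ * (w - b)) {Nf : ℕ → ℕ → ℝ}
    (hNf : ∀ i < r, ∀ j : ℕ, j ≤ 1 → n i - (j : ℝ) * w ≤ Nf i j) (Jm k : ℕ) :
    ∀ v ∈ G, b ≤ v → v ≤ w → v - b ≤ k * φ →
    Few S f (vg v) y (jetQ m c 0 r b p Nf) (qJets m c 0 r Jm (fun _ _ => v) (fun l _ => sn l v)
      (nvh n w μ v)) := by
  have hφ := L.φ0
  have hxs : ∀ x ∈ G, Exs S (qJets m c 0 r Jm (fun _ _ => x) (fun l _ => sn l x)
      (nvh n w μ x)) := fun x hx => by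
    obtain ⟨u₁, rd, hrd, hch⟩ := L.ch.ch x hx
    exact exs_qjets fun l l0 l1 j' _ => exs_jet (hrd l l1) (hch.att l l0 l1)
  have hstep : ∀ x ∈ G, ∀ v ∈ G, b ≤ x → x ≤ v → v ≤ x + 3 * φ → v ≤ w →
      Few S f (vg x) y (jetQ m c 0 r b p Nf) (qJets m c 0 r Jm (fun _ _ => x) (fun l _ => sn l x)
        (nvh n w μ x)) →
      Few S f (vg v) y (jetQ m c 0 r b p Nf) (qJets m c 0 r Jm (fun _ _ => v) (fun l _ => sn l v)
        (nvh n w μ v)) := by
    intro x hx v hv hbx hxv hv3 hvw h5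
    obtain ⟨u₂, rd₂, hrd₂, hch₂⟩ := L.ch.ch v hv
    have hup : ∀ (J : ℕ) (F : Fam m J), ∃ χ : LnT F → LnT F, ∀ ω,
        vg x J F ω = χ (vg v J F ω) := fun J F => vg_mono (by linarith) hch₂.u0.le J F
    exact Few.trans L.pos (hxs x hx)
      (Few.up (f' := f) (y' := y) L.pos (fun J F => ⟨fun x => x, fun _ => rfl⟩) hup
        (fun J F => ⟨fun x => x, fun _ => rfl⟩) h5)
      (few_qjets L.pos fun i _ hi j hj => vh_any L hf hy hw hwo hn hμ0 hμ1 hx hv hbx hxv hv3 hvw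
        (fun i _ => by linarith) hi hj)
  have hb := vh_base L hf hy hw hbw hwo hn hp hnat hNf Jm
  induction k with
  | zero =>
    intro v hv hbv hvw h1
    rw [Nat.cast_zero, zero_mul] at h1
    exact hstep b L.bG v hv le_rfl hbv (by linarith) hvw hb
  | succ k ih =>
    intro v hv hbv hvw h1
    rcases le_or_gt (v - b) (3 * φ) with h2 | h2
    · exact hstep b L.bG v hv le_rfl hbv (by linarith) hvw hb
    obtain ⟨x, hx, h3⟩ := L.gap (v - 2 * φ) (by linarith) (by linarith)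
    have h4 := abs_le.1 h3
    push_cast at h1
    exact hstep x hx v hv (by linarith) (by linarith) (by linarith) hvw
      (ih x hx (by linarith) (by linarith) (by linarith))

section tie

variable {k f' : ℕ}

/-- **The own jets of the place `c k` of a high order** at all windows between `b` and `w`. -/
theorem uj_all (L : LadT S c k f' sn G b o φ) (hf1 : 0 < f')
    (hf : ∀ (J : ℕ) (F : Fam m J), ∃ χ : α J F → PtT F, ∀ ω, ptr F J ω = χ (f J F ω))
    (hy : Kn ((range 0).image c) 1 1 y) {w : ℝ} {n p : ℕ → ℝ} (hw : w ∈ G) (hbw : b ≤ w)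
    (hwo : w ≤ o) (hn : Nst (k + 1) sn w φ n) {μ : ℝ} (hμ0 : 0 < μ) (hμ1 : μ ≤ 1)
    (hp : ∀ i < k, sn i b - φ ≤ p i)
    (hnat : ∀ i ≤ k, n i - sn i w + 3 * φ ≤ μ * (w - b)) {Nf : ℕ → ℕ → ℝ}
    (hNf : ∀ i < k, ∀ j : ℕ, j ≤ 1 → n i - (j : ℝ) * w ≤ Nf i j) {j : ℕ} (hj : 2 ≤ j)
    (hsl : ∀ v ∈ G, b ≤ v → v ≤ w → sn k w - sn k v ≤ ((j : ℝ) - μ) * (w - v) + 2 * φ)
    {φ' : ℝ} (hφ' : 0 < φ') (hφ'φ : φ' ≤ φ) (hgap : ∀ x, b ≤ x → x ≤ o → ∃ v ∈ G, |v - x| ≤ φ')
    (hjmp : ∀ v ∈ G, ∀ v' ∈ G, b ≤ v → v ≤ v' → v' ≤ o → v' ≤ v + 3 * φ' →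
      sn k v' ≤ sn k v + 2 * φ) (t : ℕ) :
    ∀ v ∈ G, b ≤ v → v ≤ w → v - b ≤ t * φ' →
    Few S f (vg v) y (jetQ m c 0 k b p Nf)
      (qJet m ((range k).image c) (c k) j v (sn k v) (n k - (j : ℝ) * w)) := by
  have hφ := L.φ0
  have Ld := L.toLadR.lad
  obtain ⟨C₀, htm⟩ := L.tm
  have hnk : Nst k sn w φ n := ⟨fun i hi => hn.lo i (by omega), fun i hi => hn.hi i (by omega),
    fun i hi l hl => hn.ne i (by omega) l hl⟩
  have hj2 : (2 : ℝ) ≤ j := by exact_mod_cast hj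
  have hV : ∀ v ∈ G, b ≤ v → v ≤ w → Few S f (vg v) y (jetQ m c 0 k b p Nf)
      (qJets m c 0 k j (fun _ _ => v) (fun l _ => sn l v) (nvh n w μ v)) := fun v hv h1 h2 => by
    obtain ⟨t, ht⟩ := exists_nat_ge ((v - b) / φ)
    rw [div_le_iff₀ hφ] at ht
    exact vh_all Ld hf hy hw hbw hwo hnk hμ0 hμ1 hp (fun i hi => hnat i hi.le) hNf j t v hv h1 h2
      ht
  have hnatv : ∀ v ∈ G, b ≤ v → v ≤ w → n k - sn k w + 3 * φ ≤ μ * (w - v) →
      Few S f (vg v) y (jetQ m c 0 k b p Nf)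
        (qJet m ((range k).image c) (c k) j v (sn k v) (n k - (j : ℝ) * w)) := by
    intro v hv h1 h2 h3
    obtain ⟨u₁, rd, hrd, hch⟩ := L.ch.ch v hv
    refine Few0.few L.pos (few0_iff.2 fun h' hh => ⟨φ / 4, by linarith,
      few0_room htm hch.w0 hch.u0 hφ ?_ _ _ _ hh⟩)
    have h4 := hsl v hv h1 h2
    have e1 : ((j : ℝ) - μ) * (w - v) = j * w - j * v - μ * (w - v) := by ring
    linarith
  have hstep : ∀ x ∈ G, ∀ v ∈ G, b ≤ x → x ≤ v → v ≤ x + 3 * φ' → v ≤ w →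
      Few S f (vg x) y (jetQ m c 0 k b p Nf)
        (qJet m ((range k).image c) (c k) j x (sn k x) (n k - (j : ℝ) * w)) →
      Few S f (vg v) y (jetQ m c 0 k b p Nf)
        (qJet m ((range k).image c) (c k) j v (sn k v) (n k - (j : ℝ) * w)) := by
    intro x hx v hv hbx hxv hv3 hvw h5
    rcases le_or_gt (n k - sn k w + 3 * φ) (μ * (w - v)) with hA | hA
    · exact hnatv v hv (hbx.trans hxv) hvw hA
    obtain ⟨u₁, rd, hrd, hch⟩ := L.ch.ch v hv
    obtain ⟨u₂, rd₂, hrd₂, hch₂⟩ := L.ch.ch x hx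
    have hbv := hbx.trans hxv
    have hv1 : v < 1 := hch.u0
    have hup : ∀ (J : ℕ) (F : Fam m J), ∃ χ : LnT F → LnT F, ∀ ω,
        vg x J F ω = χ (vg v J F ω) := fun J F => vg_mono (by linarith) hch.u0.le J F
    have hmin : min (1 : ℝ) (1 - v) = 1 - v := min_eq_right (by linarith [hch.w0])
    have g1 := hsl v hv hbv hvw
    have g2 := hjmp x hx v hv hbx hxv (hvw.trans hwo) hv3
    have g3 : sn k v - 2 * φ ≤ min (sn k x) (sn k v) := le_min (by linarith) (by linarith)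
    have g4 := hn.hi k (by omega)
    have eX : n k - (j : ℝ) * w + (j : ℝ) * v = n k - (j : ℝ) * (w - v) := by ring
    have eY : ((j : ℝ) - μ) * (w - v) = j * (w - v) - μ * (w - v) := by ring
    have hX0 : 0 ≤ μ * (w - v) := mul_nonneg hμ0.le (by linarith)
    obtain ⟨X, hX⟩ : ∃ X : ℝ, X = μ * (w - v) := ⟨_, rfl⟩
    obtain ⟨lv, hlv⟩ : ∃ lv : ℕ → ℝ, lv = fun l => n l - sn l w - X - 8 * φ := ⟨_, rfl⟩
    have hlvl : ∀ l, lv l = n l - sn l w - X - 8 * φ := fun l => by rw [hlv]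
    rw [← hX] at hA hX0 eY
    have d2 : ∀ i < k, sn i w - sn i v ≤ w - v + 2 * φ := fun i hi =>
      Ld.dif hi hv hw (by linarith) (by linarith) (by linarith) hwo
    have d3 : ∀ i < k, w - v - 2 * φ ≤ sn i w - sn i v := fun i hi => by
      have := Ld.dif hi hw hv (by linarith) hwo (by linarith) (by linarith)
      linarith
    have key := few_jetN (f := f) (y := y) htm (hch.take (Nat.zero_le k) (by omega)) (k := c k)
      (j := j) (wv := fun _ _ => v) (pv := fun l _ => sn l v)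
      (Nv := nvh n w μ v)
      (lv := lv) (w₁ := x) (w₂ := v) (p₁ := sn k x) (p₂ := sn k v)
      (N₁ := n k - (j : ℝ) * w) (N₂ := n k - (j : ℝ) * w) (p₀ := 1) (lam := 1) (σ₀ := φ)
      (fun _ _ _ _ _ => le_rfl) hxv le_rfl hv1 le_rfl one_pos hφ (by
        intro l _ hl
        have k1 := hn.ne k (by omega) l hl
        rw [hlvl]
        linarith) (by
        intro l _ hl j'' hj''
        rw [hlvl]
        have k3 := d2 l (by omega)
        have k4 := d3 l (by omega)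
        show sn l v + (n l - sn l w - X - 8 * φ) + φ ≤ _
        rcases Nat.lt_or_ge 1 j'' with h1 | h1
        · rw [nvh_hi h1, ← hX]
          have h4 : ((j'' : ℝ) - 1) * v = j'' * v - v := by ring
          linarith
        · rw [nvh_lo h1]
          have h5 : (j'' : ℝ) * (w - v) ≤ 1 * (w - v) :=
            mul_le_mul_of_nonneg_right (by exact_mod_cast h1) (by linarith)
          have h6 : (j'' : ℝ) * (w - v) = j'' * w - j'' * v := by ring
          linarith) (by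
        intro l _ hl j'' hj''
        have k1 := hn.hi l (by omega)
        have k3 := d2 l (by omega)
        rw [hlvl, hmin, min_self]
        show sn l v + (n l - sn l w - X - 8 * φ) + φ ≤ sn l v + (1 - v)
        linarith) (by
        intro l _ hl j'' hj'' l' _ hl'
        have k1 := hn.ne l (by omega) l' hl'
        rw [hlvl, hlvl, min_self]
        show sn l v + (n l - sn l w - X - 8 * φ) + φ ≤ sn l v + (n l' - sn l' w - X - 8 * φ)
        linarith) le_rfl (by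
        rw [hmin, eX]
        linarith) (by
        intro l _ hl
        have k1 := hn.ne k (by omega) l hl
        rw [hlvl, eX]
        linarith) hf hy
    have hxs : Exs S ((qJets m c 0 k j (fun _ _ => v) (fun l _ => sn l v) (nvh n w μ v)).prod
        (qJet m ((range k).image c) (c k) j x (sn k x) (n k - (j : ℝ) * w))) :=
      Exs.prod (exs_qjets fun l l0 l1 j' _ => exs_jet (hrd l (by omega)) (hch.att l l0 (by omega)))
        (exs_jet (hrd₂ k (by omega)) (hch₂.att k (Nat.zero_le _) (by omega)))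
    exact Few.trans L.pos hxs (Few.pair L.pos (hV v hv hbv hvw)
      (Few.up (f' := f) (y' := y) L.pos (fun J F => ⟨fun x => x, fun _ => rfl⟩) hup
        (fun J F => ⟨fun x => x, fun _ => rfl⟩) h5)) key
  have hb := hnatv b L.bG le_rfl hbw (hnat k le_rfl)
  induction t with
  | zero =>
    intro v hv hbv hvw h1
    rw [Nat.cast_zero, zero_mul] at h1
    exact hstep b L.bG v hv le_rfl hbv (by linarith) hvw hb
  | succ t ih =>
    intro v hv hbv hvw h1
    rcases le_or_gt (v - b) (3 * φ') with h2 | h2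
    · exact hstep b L.bG v hv le_rfl hbv (by linarith) hvw hb
    obtain ⟨x, hx, h3⟩ := hgap (v - 2 * φ') (by linarith) (by linarith)
    have h4 := abs_le.1 h3
    push_cast at h1
    exact hstep x hx v hv (by linarith) (by linarith) (by linarith) hvw
      (ih x hx (by linarith) (by linarith) (by linarith))

/-- **(UJ) The own jets of the place `c k` of a high order** at the window `w`. -/
theorem uj_high (L : LadT S c k f' sn G b o φ) (hf1 : 0 < f')
    (hf : ∀ (J : ℕ) (F : Fam m J), ∃ χ : α J F → PtT F, ∀ ω, ptr F J ω = χ (f J F ω))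
    (hy : Kn ((range 0).image c) 1 1 y) {w ow : ℝ} {n p : ℕ → ℝ} (hw : w ∈ G) (hbw : b ≤ w)
    (hwo : w ≤ o) (how : w ≤ ow) (how1 : ow ≤ 1) (hn : Nst (k + 1) sn w φ n) {μ : ℝ}
    (hμ0 : 0 < μ) (hμ1 : μ ≤ 1)
    (hp : ∀ i < k, sn i b - φ ≤ p i)
    (hnat : ∀ i ≤ k, n i - sn i w + 3 * φ ≤ μ * (w - b)) {Nf : ℕ → ℕ → ℝ}
    (hNf : ∀ i < k, ∀ j : ℕ, j ≤ 1 → n i - (j : ℝ) * w ≤ Nf i j) {j : ℕ} (hj : 2 ≤ j)
    (hsl : ∀ v ∈ G, b ≤ v → v ≤ w → sn k w - sn k v ≤ ((j : ℝ) - μ) * (w - v) + 2 * φ) :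
    Few S f (vg ow) y (jetQ m c 0 k b p Nf)
      (qJet m ((range k).image c) (c k) j w (sn k w) (n k - (j : ℝ) * w)) := by
  obtain ⟨φ', hφ'0, hφ', hgap, hjmp⟩ := L.fm
  obtain ⟨t, ht⟩ := exists_nat_ge ((w - b) / φ')
  rw [div_le_iff₀ hφ'0] at ht
  have h2 := uj_all L hf1 hf hy hw hbw hwo hn hμ0 hμ1 hp hnat hNf hj hsl hφ'0 hφ' hgap
    (fun v hv v' hv' h1 h2 h3 h4 => hjmp k le_rfl (by omega) v hv v' hv' h1 h2 h3 h4) t w hw hbw
    le_rfl ht
  exact Few.up (f' := f) (y' := y) L.pos (fun J F => ⟨fun x => x, fun _ => rfl⟩)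
    (fun J F => vg_mono (by linarith) how1 J F) (fun J F => ⟨fun x => x, fun _ => rfl⟩) h2

/-- **(UJ) The position of the place `c k`** over labels of the window `w`, from the record at `x`. -/
theorem uj_zero (L : LadT S c k f' sn G b o φ) (hf1 : 0 < f')
    (hf : ∀ (J : ℕ) (F : Fam m J), ∃ χ : α J F → PtT F, ∀ ω, ptr F J ω = χ (f J F ω))
    (hy : Kn ((range 0).image c) 1 1 y) {w x ox : ℝ} {n p : ℕ → ℝ} (hw : w ∈ G) (hx : x ∈ G)
    (hbw : b ≤ w) (hwx : w ≤ x) (hxo : x ≤ o) (hox : x ≤ ox) (hox1 : ox ≤ 1)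
    (hn : Nst (k + 1) sn w φ n) (hp : ∀ i < k, sn i b - φ ≤ p i)
    (hlo : ∀ i < k, sn i x + 20 * φ ≤ n i) (hnx : n k + 20 * φ ≤ sn k x) :
    Few S f (vg ox) y (jetQ m c 0 k b p (fun l j => n l - (j : ℝ) * w))
      (qJet m ((range k).image c) (c k) 0 w (sn k w) (n k - ((0 : ℕ) : ℝ) * w)) := by
  have hφ := L.φ0
  have hnk : Nst k sn w φ n := ⟨fun i hi => hn.lo i (by omega), fun i hi => hn.hi i (by omega),
    fun i hi l hl => hn.ne i (by omega) l hl⟩
  have h1 := Pool.V0R.t_nupr (L.toLadR.take hf1) hf hy (w := w) (j := x) (oj := ox)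
    (pr := sn k w) (N := n k) (p := p) (n := n) hw hx hbw hwx hxo hox hox1 hp
    (by rw [Nat.add_zero]; linarith) hnk (fun i hi => by linarith [hlo i hi])
    (fun v _ _ _ => by
      rw [Nat.add_zero, Nat.cast_zero]
      linarith) (by
      rw [Nat.add_zero, Nat.cast_zero]
      linarith [hn.hi k (by omega)]) (fun i hi => by
      rw [Nat.add_zero, Nat.cast_zero]
      linarith [hn.ne k (by omega) i hi])
  rw [Nat.add_zero] at h1
  have e0 : n k - ((0 : ℕ) : ℝ) * w = n k := by push_cast; ring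
  rw [e0]
  refine Few.pre L.pos (fun u : ℕ → ℕ → ℤ => (fun l j'' => if 0 ≤ l ∧ l < k ∧ j'' ≤ 0 then
    u l j'' else 0)) ?_ h1
  intro K e J F A u hu
  have h2 := qJets_take (n := k) (k := 0) le_rfl (Nat.zero_le 1) hu
  refine ⟨fun i a b' j' hj' => ?_, h2.2⟩
  obtain rfl : j' = 0 := by omega
  have h3 := h2.1 i a b' 0 le_rfl
  have e1 : n i - ((0 : ℕ) : ℝ) * w = n i := by push_cast; ring
  dsimp only at h3 ⊢
  rw [e1] at h3
  exact h3

/-- **(UJ) All own jets of the places `c k, …`** over labels of the window `w`, if closed labels of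
the precision `P l` larger than the digits `n l` exist (static and steep places). -/
theorem uj_prec (L : LadT S c k f' sn G b o φ)
    (hf : ∀ (J : ℕ) (F : Fam m J), ∃ χ : α J F → PtT F, ∀ ω, ptr F J ω = χ (f J F ω))
    (hy : Kn ((range 0).image c) 1 1 y) {w ow : ℝ} {n p : ℕ → ℝ} (hw : w ∈ G) (hbw : b ≤ w)
    (hwo : w ≤ o) (how : w ≤ ow) (how1 : ow ≤ 1) (hn : Nst (k + f') sn w φ n)
    (hp : ∀ i < k, sn i b - φ ≤ p i)
    (hnat : ∀ i < k, n i - sn i w + 3 * φ ≤ w - b) {Nf : ℕ → ℕ → ℝ}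
    (hNf : ∀ i < k, ∀ j : ℕ, j ≤ 1 → n i - (j : ℝ) * w ≤ Nf i j) {P : ℕ → ℝ}
    (hP : ∀ l, k ≤ l → l < k + f' → sn l w ≤ P l ∧ n l + φ ≤ P l ∧ ∃ rk E : ℝ, 0 ≤ rk ∧ 0 ≤ E ∧
      AttG S ((range l).image c) (c l) w (P l) rk E) :
    ∀ l < k + f', ∀ j : ℕ, Few S f (vg ow) y (jetQ m c 0 k b p Nf)
      (qJet m ((range l).image c) (c l) j w (sn l w) (n l - (j : ℝ) * w)) := by
  have hφ := L.φ0
  have Ld := L.toLadR.lad
  obtain ⟨C₀, htm⟩ := L.tm
  have hnk : Nst k sn w φ n := ⟨fun i hi => hn.lo i (by omega), fun i hi => hn.hi i (by omega),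
    fun i hi l hl => hn.ne i (by omega) l hl⟩
  obtain ⟨u₁, rd, hrd, hch⟩ := L.ch.ch w hw
  have hw1 : w < 1 := hch.u0
  have hmin : min (1 : ℝ) (1 - w) = 1 - w := min_eq_right (by linarith [hch.w0])
  have hup : ∀ (J : ℕ) (F : Fam m J), ∃ χ : LnT F → LnT F, ∀ ω,
      vg w J F ω = χ (vg ow J F ω) := fun J F => vg_mono (by linarith) how1 J F
  suffices h : ∀ l < k + f', ∀ j : ℕ, Few S f (vg w) y (jetQ m c 0 k b p Nf)
      (qJet m ((range l).image c) (c l) j w (sn l w) (n l - (j : ℝ) * w)) from fun l hl j =>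
    Few.up (f' := f) (y' := y) L.pos (fun J F => ⟨fun x => x, fun _ => rfl⟩) hup
      (fun J F => ⟨fun x => x, fun _ => rfl⟩) (h l hl j)
  intro l
  induction l using Nat.strong_induction_on with
  | _ l IH =>
  intro hl j
  rcases Nat.lt_or_ge l k with h1 | h1
  · exact vuj_jet Ld hf hy hw hbw hwo le_rfl hw1.le hnk hp hnat hNf h1 j
  obtain ⟨p1, p2, rk, E, hrk, hE, hat⟩ := hP l h1 hl
  have hV : Few S f (vg w) y (jetQ m c 0 k b p Nf) (qJets m c 0 l j (fun _ _ => w)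
      (fun l _ => sn l w) (fun l j => n l - (j : ℝ) * w)) :=
    few_qjets L.pos fun i _ hi j' _ => IH i hi (by omega) j'
  have h0 : Few S f (vg w) y (jetQ m c 0 k b p Nf)
      (qJet m ((range l).image c) (c l) j w (P l) (n l - (j : ℝ) * w)) :=
    Few0.few L.pos (few0_iff.2 fun h' hh => ⟨φ / 4, by linarith,
      few0_room htm hch.w0 hch.u0 hφ (by linarith) _ _ _ hh⟩)
  have g1 : sn l w ≤ min (P l) (sn l w) := le_min p1 le_rfl
  have g2 := hn.hi l hl
  have key := few_jetN (f := f) (y := y) htm (hch.take (Nat.zero_le l) hl.le) (k := c l)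
    (j := j) (wv := fun _ _ => w) (pv := fun l _ => sn l w)
    (Nv := fun l j => n l - (j : ℝ) * w)
    (lv := fun l => n l - sn l w - φ) (w₁ := w) (w₂ := w) (p₁ := P l) (p₂ := sn l w)
    (N₁ := n l - (j : ℝ) * w) (N₂ := n l - (j : ℝ) * w) (p₀ := 1) (lam := 1) (σ₀ := φ)
    (fun _ _ _ _ _ => le_rfl) le_rfl le_rfl hw1 le_rfl one_pos hφ (by
      intro i _ hi
      have k1 := hn.lo i (by omega)
      show 0 < n i - sn i w - φ
      linarith) (by
      intro i _ hi j'' hj''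
      show sn i w + (n i - sn i w - φ) + φ ≤ n i - (j'' : ℝ) * w + j'' * w
      linarith) (by
      intro i _ hi j'' hj''
      have k1 := hn.hi i (by omega)
      rw [hmin, min_self]
      show sn i w + (n i - sn i w - φ) + φ ≤ sn i w + (1 - w)
      linarith) (by
      intro i _ hi j'' hj'' l' _ hl'
      have k1 := hn.ne i (by omega) l' hl'
      rw [min_self]
      show sn i w + (n i - sn i w - φ) + φ ≤ sn i w + (n l' - sn l' w - φ)
      linarith) le_rfl (by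
      rw [hmin]
      linarith) (by
      intro i _ hi
      have k1 := hn.ne l hl i hi
      show _ ≤ min (P l) (sn l w) + (n i - sn i w - φ)
      linarith) hf hy
  have hxs : Exs S ((qJets m c 0 l j (fun _ _ => w) (fun l _ => sn l w)
      (fun l j => n l - (j : ℝ) * w)).prod
      (qJet m ((range l).image c) (c l) j w (P l) (n l - (j : ℝ) * w))) :=
    Exs.prod (exs_qjets fun l l0 l1 j' _ => exs_jet (hrd l (by omega)) (hch.att l l0 (by omega)))
      (exs_jetE hrk hE hat)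
  exact Few.trans L.pos hxs (Few.pair L.pos hV h0) key

end tie

end Pool.NVT16
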